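import Pool.Agent.SP.Chain

namespace Pool.Agent.SP

open Finset

namespace Walk

variable {G : Type} [Group G] {n : ℕ} {D : Dat G n} {w : Walk D}

lemma iter_spec {q : G ⧸ Subgroup.zpowers D.S} (hV : w.inV q) {k : ℕ}
    (h : ∀ j, j < k → w.Perf (w.nxt^[j] q)) :
    w.inV (w.nxt^[k] q) ∧ w.ent (w.nxt^[k] q) = w.ent q * (D.S * D.W) ^ k ∧
      w.tl q + k ≤ w.tl (w.nxt^[k] q) := by
  induction k with
  | zero => simp [hV]
  | succ k ih =>
    have ih' := ih (fun j hj => h j (by omega))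
    have hs := (h k (by omega)).spec
    rw [Function.iterate_succ_apply']
    refine ⟨hs.2.1, ?_, by omega⟩
    rw [hs.2.2.1, ih'.2.1, pow_succ]; group

lemma exists_end {q : G ⧸ Subgroup.zpowers D.S} (hV : w.inV q) :
    ∃ k, k < n - 2 ∧ ¬ w.Perf (w.nxt^[k] q) := by
  by_contra hc
  push Not at hc
  have hn := D.hn
  have h := iter_spec hV (k := n - 2) hc
  rw [D.sw, mul_one] at h
  have h2 : w.nxt^[n - 2] q = q := by
    rw [← line_ent h.1, h.2.1, line_ent hV]
  rw [h2] at h
  omega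

open Classical in
/-- number of perfect successions from a line -/
noncomputable def kk (w : Walk D) (q : G ⧸ Subgroup.zpowers D.S) : ℕ :=
  sInf {k | ¬ w.Perf (w.nxt^[k] q)}

/-- end of the chain of a line -/
noncomputable def endq (w : Walk D) (q : G ⧸ Subgroup.zpowers D.S) :
    G ⧸ Subgroup.zpowers D.S := w.nxt^[w.kk q] q

lemma kk_spec {q : G ⧸ Subgroup.zpowers D.S} (hV : w.inV q) :
    w.kk q < n - 2 ∧ ¬ w.Perf (w.endq q) ∧ ∀ j, j < w.kk q → w.Perf (w.nxt^[j] q) := by
  obtain ⟨k, hk, hp⟩ := exists_end hV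
  have h1 : w.kk q ≤ k := Nat.sInf_le hp
  have h2 : w.kk q ∈ {k | ¬ w.Perf (w.nxt^[k] q)} := Nat.sInf_mem ⟨k, hp⟩
  refine ⟨by omega, h2, ?_⟩
  intro j hj
  by_contra hc
  have : w.kk q ≤ j := Nat.sInf_le hc
  omega

/-- has a perfect predecessor -/
def hasPred (w : Walk D) (q : G ⧸ Subgroup.zpowers D.S) : Prop := ∃ κ, w.Perf κ ∧ w.nxt κ = q

lemma xt_ne_of_hasPred {q : G ⧸ Subgroup.zpowers D.S} (h : w.hasPred q) :
    w.xt q + 2 ≠ w.tl q := by
  obtain ⟨κ, hκ, hq⟩ := h
  have hs := hκ.spec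
  rw [hq] at hs
  intro he
  have h1 : w.xt q = w.xt κ + 1 := by omega
  have h2 := P_xt (w := w) q
  rw [h1] at h2
  exact hκ.2.2.2.2.2.2.1 h2

lemma caseA {q : G ⧸ Subgroup.zpowers D.S} (hV : w.inV q) (hu : w.unsp q) (hp : ¬ w.Perf q)
    (hc : ¬ w.isU (w.ent q * D.S ^ (n - 2))) :
    w.bc q ∧ (w.hasPred q → w.isU (w.ent (w.suc q) * D.S ^ (n - 4))) := by
  have hn := D.hn
  have hfirst : w.first (w.ent q * D.S ^ (n - 2)) := by
    by_contra h
    exact hc ⟨by rw [line_ent_pow hV]; exact hV, h⟩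
  have htop : w.top q = n - 2 := by
    by_contra h
    have := top_le (w := w) q
    exact not_arr_of_gt (w := w) (q := q) (i := n - 2) (by omega) (le_refl _)
      (w.arr_of_first hfirst)
  have hF : w.xt q + 2 ≠ w.tl q := by
    intro he
    have h1 : w.fv (w.ent q * D.S ^ (n - 2)) ≤ w.xt q := by
      unfold xt
      rw [htop]
      apply hfirst
      simpa using cyc_mul_zpow (D := D) (w.ent q * D.S ^ (n - 2)) (-1)
    have h2 := (arr_of_le hV hu (i := 0) (by omega)).2
    rw [pow_zero, mul_one, fv_ent hV hu, htop] at h2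
    omega
  have h := factA hV hu hp htop hF
  exact ⟨h.1, fun ⟨κ, hκ, hq⟩ => h.2 κ hκ hq⟩

lemma caseB {q : G ⧸ Subgroup.zpowers D.S} (hV : w.inV q) (hu : w.unsp q) (hp : ¬ w.Perf q)
    (hpr : w.hasPred q) (hd : ¬ w.isU (w.ent q * D.S ^ (n - 3))) : w.bc q := by
  have hn := D.hn
  have hfirst : w.first (w.ent q * D.S ^ (n - 3)) := by
    by_contra h
    exact hd ⟨by rw [line_ent_pow hV]; exact hV, h⟩
  have htop : n - 3 ≤ w.top q := by
    by_contra h
    exact not_arr_of_gt (w := w) (q := q) (i := n - 3) (by omega) (by omega)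
      (w.arr_of_first hfirst)
  have htop2 := top_le (w := w) q
  by_cases h : w.top q = n - 2
  · exact (factA hV hu hp h (xt_ne_of_hasPred hpr)).1
  · obtain ⟨κ, hκ, hq⟩ := hpr
    exact factB hV hu (by omega) hκ hq

open Classical in
/-- first unit of a chain end -/
noncomputable def u1 (w : Walk D) (q : G ⧸ Subgroup.zpowers D.S) :
    (G ⧸ Subgroup.zpowers D.S) × ℕ :=
  if w.isU (w.ent q * D.S ^ (n - 2)) then (q, n - 2) else (w.suc q, n - 3)

open Classical in
/-- second unit of a chain end -/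
noncomputable def u2 (w : Walk D) (q : G ⧸ Subgroup.zpowers D.S) :
    (G ⧸ Subgroup.zpowers D.S) × ℕ :=
  if w.isU (w.ent q * D.S ^ (n - 2)) then
    (if w.isU (w.ent q * D.S ^ (n - 3)) then (q, n - 3) else (w.suc q, n - 3))
  else (w.suc q, n - 4)

/-- good end: unspoiled chain end -/
def good (w : Walk D) (q : G ⧸ Subgroup.zpowers D.S) : Prop := w.inV q ∧ w.unsp q ∧ ¬ w.Perf q

lemma suc_inV_of_bc {q : G ⧸ Subgroup.zpowers D.S} (h : w.bc q) : w.inV (w.suc q) :=
  (tl_suc h.2.1).2.1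

lemma u1_spec {q : G ⧸ Subgroup.zpowers D.S} (h : w.good q) :
    w.inV (w.u1 q).1 ∧ (w.u1 q).2 ≤ n - 2 ∧ w.isU (w.ent (w.u1 q).1 * D.S ^ (w.u1 q).2) := by
  classical
  obtain ⟨hV, hu, hp⟩ := h
  unfold u1
  split_ifs with hc
  · exact ⟨hV, le_refl _, hc⟩
  · have := (caseA hV hu hp hc).1
    exact ⟨suc_inV_of_bc this, by show n - 3 ≤ n - 2; omega, this.2.2.2⟩

lemma u2_spec {q : G ⧸ Subgroup.zpowers D.S} (h : w.good q) (hpr : w.hasPred q) :
    w.inV (w.u2 q).1 ∧ (w.u2 q).2 ≤ n - 2 ∧ w.isU (w.ent (w.u2 q).1 * D.S ^ (w.u2 q).2) := by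
  classical
  obtain ⟨hV, hu, hp⟩ := h
  unfold u2
  split_ifs with hc hd
  · exact ⟨hV, by show n - 3 ≤ n - 2; omega, hd⟩
  · have := caseB hV hu hp hpr hd
    exact ⟨suc_inV_of_bc this, by show n - 3 ≤ n - 2; omega, this.2.2.2⟩
  · have := caseA hV hu hp hc
    exact ⟨suc_inV_of_bc this.1, by show n - 4 ≤ n - 2; omega, this.2 hpr⟩

lemma eq_of_suc_eq {q q' : G ⧸ Subgroup.zpowers D.S} (h : w.bc q) (h' : w.bc q')
    (he : w.suc q = w.suc q') : q = q' := by
  have h1 := (tl_suc h.2.1).1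
  have h2 := (tl_suc h'.2.1).1
  rw [he] at h1
  exact eq_of_xt_eq h.1 h'.1 (by omega)

lemma suc_ne_of_hasPred {q q' : G ⧸ Subgroup.zpowers D.S} (h : w.bc q) (hp : ¬ w.Perf q)
    (h' : w.hasPred q') : w.suc q ≠ q' := by
  intro he
  obtain ⟨κ, hκ, hq⟩ := h'
  have h1 := (tl_suc h.2.1).1
  have h2 := hκ.spec
  rw [hq] at h2
  rw [he] at h1
  have h3 : w.xt q = w.xt κ := by omega
  have h4 := eq_of_xt_eq h.1 hκ.1 h3
  rw [h4] at hp
  exact hp hκ

lemma u1_inj {q q' : G ⧸ Subgroup.zpowers D.S} (h : w.good q) (h' : w.good q')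
    (he : w.u1 q = w.u1 q') : q = q' := by
  classical
  have hn := D.hn
  unfold u1 at he
  split_ifs at he with hc hc' hc'
  · exact congrArg Prod.fst he
  · have : n - 2 = n - 3 := congrArg Prod.snd he
    omega
  · have : n - 3 = n - 2 := congrArg Prod.snd he
    omega
  · exact eq_of_suc_eq (caseA h.1 h.2.1 h.2.2 hc).1 (caseA h'.1 h'.2.1 h'.2.2 hc').1
      (congrArg Prod.fst he)

lemma u2_cases {q : G ⧸ Subgroup.zpowers D.S} (h : w.good q) (hpr : w.hasPred q) :
    (w.isU (w.ent q * D.S ^ (n - 2)) ∧ w.u2 q = (q, n - 3)) ∨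
    (w.isU (w.ent q * D.S ^ (n - 2)) ∧ w.bc q ∧ w.u2 q = (w.suc q, n - 3)) ∨
    (¬ w.isU (w.ent q * D.S ^ (n - 2)) ∧ w.bc q ∧ w.u2 q = (w.suc q, n - 4)) := by
  classical
  unfold u2
  by_cases hc : w.isU (w.ent q * D.S ^ (n - 2))
  · by_cases hd : w.isU (w.ent q * D.S ^ (n - 3))
    · left; rw [if_pos hc, if_pos hd]; exact ⟨hc, rfl⟩
    · right; left
      rw [if_pos hc, if_neg hd]
      exact ⟨hc, caseB h.1 h.2.1 h.2.2 hpr hd, rfl⟩
  · right; right
    rw [if_neg hc]
    exact ⟨hc, (caseA h.1 h.2.1 h.2.2 hc).1, rfl⟩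

lemma u2_inj {q q' : G ⧸ Subgroup.zpowers D.S} (h : w.good q) (h' : w.good q')
    (hpr : w.hasPred q) (hpr' : w.hasPred q') (he : w.u2 q = w.u2 q') : q = q' := by
  have hn := D.hn
  rcases u2_cases h hpr with ⟨_, e⟩ | ⟨_, hb, e⟩ | ⟨_, hb, e⟩ <;>
    rcases u2_cases h' hpr' with ⟨_, e'⟩ | ⟨_, hb', e'⟩ | ⟨_, hb', e'⟩ <;>
    rw [e, e'] at he
  · exact congrArg Prod.fst he
  · exfalso
    exact suc_ne_of_hasPred hb' h'.2.2 hpr (congrArg Prod.fst he).symm
  · exfalso
    have h3 : n - 3 = n - 4 := congrArg Prod.snd he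
    omega
  · exfalso
    exact suc_ne_of_hasPred hb h.2.2 hpr' (congrArg Prod.fst he)
  · exact eq_of_suc_eq hb hb' (congrArg Prod.fst he)
  · exfalso
    have h3 : n - 3 = n - 4 := congrArg Prod.snd he
    omega
  · exfalso
    have h3 : n - 4 = n - 3 := congrArg Prod.snd he
    omega
  · exfalso
    have h3 : n - 4 = n - 3 := congrArg Prod.snd he
    omega
  · exact eq_of_suc_eq hb hb' (congrArg Prod.fst he)

lemma u1_ne_u2 {q q' : G ⧸ Subgroup.zpowers D.S} (h : w.good q) (h' : w.good q')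
    (hpr' : w.hasPred q') : w.u1 q ≠ w.u2 q' := by
  classical
  have hn := D.hn
  intro he
  unfold u1 u2 at he
  split_ifs at he with hc hc' hd' hc' hd'
  · have : n - 2 = n - 3 := congrArg Prod.snd he
    omega
  · have : n - 2 = n - 3 := congrArg Prod.snd he
    omega
  · have : n - 2 = n - 4 := congrArg Prod.snd he
    omega
  · exact suc_ne_of_hasPred (caseA h.1 h.2.1 h.2.2 hc).1 h.2.2 hpr' (congrArg Prod.fst he)
  · have := eq_of_suc_eq (caseA h.1 h.2.1 h.2.2 hc).1 (caseB h'.1 h'.2.1 h'.2.2 hpr' hd')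
      (congrArg Prod.fst he)
    rw [this] at hc
    exact hc hc'
  · have : n - 3 = n - 4 := congrArg Prod.snd he
    omega

lemma pair_inj {p p' : (G ⧸ Subgroup.zpowers D.S) × ℕ} (h : w.inV p.1) (h' : w.inV p'.1)
    (hi : p.2 ≤ n - 2) (hi' : p'.2 ≤ n - 2)
    (he : w.ent p.1 * D.S ^ p.2 = w.ent p'.1 * D.S ^ p'.2) : p = p' := by
  have hn := D.hn
  have h1 : p.1 = p'.1 := by
    rw [← line_ent_pow h p.2, ← line_ent_pow h' p'.2, he]
  rw [h1] at he
  have h2 : D.S ^ p.2 = D.S ^ p'.2 := mul_left_cancel he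
  have h3 := pow_S_inj (D := D) (by omega) (by omega) h2
  exact Prod.ext h1 h3

variable [Fintype G]

open Classical in
/-- good ends -/
noncomputable def Es (w : Walk D) : Finset (G ⧸ Subgroup.zpowers D.S) :=
  univ.filter (fun q => w.good q)

open Classical in
lemma card_units (w : Walk D) :
    w.Es.card + (w.Es.filter (fun q => w.hasPred q)).card ≤ w.Us.card := by
  have h1 : w.Es.card + (w.Es.filter (fun q => w.hasPred q)).card =
      (w.Es.disjSum (w.Es.filter (fun q => w.hasPred q))).card := by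
    rw [Finset.card_disjSum]
  rw [h1]
  have hEs : ∀ q, q ∈ w.Es ↔ w.good q := by
    intro q; simp [Es]
  apply Finset.card_le_card_of_injOn
    (Sum.elim (fun q => w.ent (w.u1 q).1 * D.S ^ (w.u1 q).2)
      (fun q => w.ent (w.u2 q).1 * D.S ^ (w.u2 q).2))
  · intro x hx
    have hx' := Finset.mem_coe.1 hx
    rw [Finset.mem_disjSum] at hx'
    rw [Finset.mem_coe]
    rcases hx' with ⟨q, hq, rfl⟩ | ⟨q, hq, rfl⟩
    · have := u1_spec ((hEs q).1 hq)
      simp only [Us, mem_filter, mem_univ, true_and, Sum.elim_inl]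
      exact this.2.2
    · rw [mem_filter] at hq
      have := u2_spec ((hEs q).1 hq.1) hq.2
      simp only [Us, mem_filter, mem_univ, true_and, Sum.elim_inr]
      exact this.2.2
  · intro x hx y hy hxy
    have hx' := Finset.mem_coe.1 hx
    have hy' := Finset.mem_coe.1 hy
    rw [Finset.mem_disjSum] at hx' hy'
    rcases hx' with ⟨q, hq, rfl⟩ | ⟨q, hq, rfl⟩ <;> rcases hy' with ⟨r, hr, rfl⟩ | ⟨r, hr, rfl⟩
    · simp only [Sum.elim_inl] at hxy
      have a := u1_spec ((hEs q).1 hq)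
      have b := u1_spec ((hEs r).1 hr)
      rw [u1_inj ((hEs q).1 hq) ((hEs r).1 hr) (pair_inj a.1 b.1 a.2.1 b.2.1 hxy)]
    · exfalso
      simp only [Sum.elim_inl, Sum.elim_inr] at hxy
      rw [mem_filter] at hr
      have a := u1_spec ((hEs q).1 hq)
      have b := u2_spec ((hEs r).1 hr.1) hr.2
      exact u1_ne_u2 ((hEs q).1 hq) ((hEs r).1 hr.1) hr.2 (pair_inj a.1 b.1 a.2.1 b.2.1 hxy)
    · exfalso
      simp only [Sum.elim_inl, Sum.elim_inr] at hxy
      rw [mem_filter] at hq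
      have a := u1_spec ((hEs r).1 hr)
      have b := u2_spec ((hEs q).1 hq.1) hq.2
      exact u1_ne_u2 ((hEs r).1 hr) ((hEs q).1 hq.1) hq.2
        (pair_inj a.1 b.1 a.2.1 b.2.1 hxy.symm)
    · simp only [Sum.elim_inr] at hxy
      rw [mem_filter] at hq hr
      have a := u2_spec ((hEs q).1 hq.1) hq.2
      have b := u2_spec ((hEs r).1 hr.1) hr.2
      rw [u2_inj ((hEs q).1 hq.1) ((hEs r).1 hr.1) hq.2 hr.2
        (pair_inj a.1 b.1 a.2.1 b.2.1 hxy)]

open Classical in
/-- all ends -/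
noncomputable def Ends (w : Walk D) : Finset (G ⧸ Subgroup.zpowers D.S) :=
  univ.filter (fun q => w.inV q ∧ ¬ w.Perf q)

open Classical in
lemma card_ends (w : Walk D) :
    w.Ends.card + (w.Ends.filter (fun q => w.hasPred q)).card ≤ w.Us.card + 2 * w.Sps.card := by
  have h1 : w.Ends ⊆ w.Es ∪ w.Sps := by
    intro q hq
    rw [mem_union]
    by_cases h : q ∈ w.Sps
    · right; exact h
    · left
      simp only [Ends, mem_filter, mem_univ, true_and] at hq
      simp only [Es, mem_filter, mem_univ, true_and]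
      exact ⟨hq.1, w.unsp_of_notMem h, hq.2⟩
  have h2 : w.Ends.filter (fun q => w.hasPred q) ⊆
      w.Es.filter (fun q => w.hasPred q) ∪ w.Sps := by
    intro q hq
    rw [mem_filter] at hq
    have := h1 hq.1
    rw [mem_union] at this ⊢
    rcases this with h | h
    · left; rw [mem_filter]; exact ⟨h, hq.2⟩
    · right; exact h
  have h3 := Finset.card_le_card h1
  have h4 := Finset.card_le_card h2
  have h5 := Finset.card_union_le w.Es w.Sps
  have h6 := Finset.card_union_le (w.Es.filter (fun q => w.hasPred q)) w.Sps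
  have h7 := w.card_units
  omega

open Classical in
lemma fiber_le {w : Walk D} (ℓ : G ⧸ Subgroup.zpowers D.S) :
    (w.Vs.filter (fun q => w.endq q = ℓ)).card ≤ n - 2 := by
  have h : (w.Vs.filter (fun q => w.endq q = ℓ)).card ≤ (range (n - 2)).card := by
    apply Finset.card_le_card_of_injOn (fun q => w.kk q)
    · intro q hq
      have hq' := Finset.mem_coe.1 hq
      rw [mem_filter] at hq'
      have hV : w.inV q := (mem_filter.1 hq'.1).2
      rw [Finset.mem_coe, mem_range]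
      exact (kk_spec hV).1
    · intro q hq q' hq' he
      rw [Finset.mem_coe, mem_filter] at hq hq'
      have hV : w.inV q := (mem_filter.1 hq.1).2
      have hV' : w.inV q' := (mem_filter.1 hq'.1).2
      have a := iter_spec hV (kk_spec hV).2.2
      have b := iter_spec hV' (kk_spec hV').2.2
      have c : w.nxt^[w.kk q] q = w.nxt^[w.kk q'] q' := by
        have h1 : w.endq q = ℓ := hq.2
        have h2 : w.endq q' = ℓ := hq'.2
        unfold endq at h1 h2
        rw [h1, h2]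
      have he' : w.kk q = w.kk q' := he
      have d : w.ent q = w.ent q' := by
        have h1 := a.2.1
        have h2 := b.2.1
        rw [c, h2, he'] at h1
        exact (mul_right_cancel h1).symm
      rw [← line_ent hV, ← line_ent hV', d]
  simpa using h

open Classical in
lemma fiber_le_one {w : Walk D} (ℓ : G ⧸ Subgroup.zpowers D.S) (h : ¬ w.hasPred ℓ) :
    (w.Vs.filter (fun q => w.endq q = ℓ)).card ≤ 1 := by
  have hsub : w.Vs.filter (fun q => w.endq q = ℓ) ⊆ {ℓ} := by
    intro q hq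
    rw [mem_filter] at hq
    have hV : w.inV q := (mem_filter.1 hq.1).2
    rw [mem_singleton]
    by_contra hne
    apply h
    have hk : w.kk q ≠ 0 := by
      intro h0
      apply hne
      have := hq.2
      unfold endq at this
      rw [h0] at this
      exact this
    obtain ⟨j, hj⟩ := Nat.exists_eq_succ_of_ne_zero hk
    refine ⟨w.nxt^[j] q, (kk_spec hV).2.2 j (by omega), ?_⟩
    rw [← hq.2]
    unfold endq
    rw [hj, Function.iterate_succ_apply']
  exact le_trans (Finset.card_le_card hsub) (by simp)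

lemma two_V_le (w : Walk D) : 2 * w.Vs.card ≤ (n - 2) * (w.Us.card + 2 * w.Sps.card) := by
  classical
  have hn := D.hn
  have h1 : w.Vs.card = ∑ ℓ ∈ w.Ends, (w.Vs.filter (fun q => w.endq q = ℓ)).card := by
    apply Finset.card_eq_sum_card_fiberwise
    intro q hq
    have hV : w.inV q := (mem_filter.1 (Finset.mem_coe.1 hq)).2
    have a := kk_spec hV
    have b := iter_spec hV a.2.2
    rw [Finset.mem_coe]
    simp only [Ends, mem_filter, mem_univ, true_and]
    exact ⟨b.1, a.2.1⟩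
  have h2 : ∀ ℓ ∈ w.Ends, 2 * (w.Vs.filter (fun q => w.endq q = ℓ)).card ≤
      (n - 2) * (1 + if w.hasPred ℓ then 1 else 0) := by
    intro ℓ _
    split_ifs with hp
    · have := fiber_le (w := w) ℓ
      have e : (n - 2) * (1 + 1) = 2 * (n - 2) := by ring
      rw [e]
      exact Nat.mul_le_mul_left 2 this
    · have := fiber_le_one (w := w) ℓ hp
      omega
  have h3 : ∑ ℓ ∈ w.Ends, (1 + if w.hasPred ℓ then 1 else 0) =
      w.Ends.card + (w.Ends.filter (fun q => w.hasPred q)).card := by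
    rw [Finset.sum_add_distrib, Finset.card_filter]
    simp
  calc 2 * w.Vs.card = ∑ ℓ ∈ w.Ends, 2 * (w.Vs.filter (fun q => w.endq q = ℓ)).card := by
        rw [h1, Finset.mul_sum]
    _ ≤ ∑ ℓ ∈ w.Ends, (n - 2) * (1 + if w.hasPred ℓ then 1 else 0) := Finset.sum_le_sum h2
    _ = (n - 2) * (w.Ends.card + (w.Ends.filter (fun q => w.hasPred q)).card) := by
        rw [← Finset.mul_sum, h3]
    _ ≤ (n - 2) * (w.Us.card + 2 * w.Sps.card) := Nat.mul_le_mul_left _ w.card_ends

/-- the main inequality of the walk -/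
theorem main (w : Walk D) (hG : Fintype.card G = n.factorial) :
    ∃ Δ : ℕ, w.T + 2 = n.factorial + (n - 1).factorial + (n - 2).factorial + Δ ∧
      2 * (n - 3).factorial ≤ (n - 1) * Δ + 2 := by
  have hn := D.hn
  have c1 := w.card_Us hG
  have c2 := w.card_Sps
  have c3 := w.count_T hG
  have c4 := w.two_V_le
  have cX : 1 ≤ w.Xs.card := by
    classical
    apply Finset.card_pos.2
    refine ⟨w.T, ?_⟩
    simp only [Xs, mem_filter, mem_range]
    exact ⟨by omega, w.extra_T⟩
  obtain ⟨k, rfl⟩ : ∃ k, n = k + 3 := ⟨n - 3, by omega⟩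
  have f1 : (k + 3 - 1).factorial = (k + 2) * (k + 1).factorial := by
    show (k + 1 + 1).factorial = _
    rw [Nat.factorial_succ]
  have f2 : (k + 3 - 2).factorial = (k + 1) * k.factorial := by
    show (k + 1).factorial = _
    rw [Nat.factorial_succ]
  have e1 : k + 3 - 1 = k + 2 := by omega
  have e2 : k + 3 - 2 = k + 1 := by omega
  have e3 : k + 3 - 3 = k := by omega
  rw [e1] at c1 c3 f1
  rw [e2] at c4 f2
  rw [e1, e2, e3]
  generalize w.Vs.card = v at *
  generalize w.Us.card = u at *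
  generalize w.Xs.card = X at *
  generalize w.Sps.card = s at *
  have hv : (k + 1).factorial ≤ v := by
    have : (k + 2) * (k + 1).factorial ≤ (k + 2) * v := by rw [← f1]; omega
    exact Nat.le_of_mul_le_mul_left this (by omega)
  obtain ⟨v', rfl⟩ : ∃ v', v = (k + 1).factorial + v' := ⟨v - (k + 1).factorial, by omega⟩
  have hu : u = (k + 2) * v' := by
    rw [f1, mul_add] at c1
    omega
  obtain ⟨E, rfl⟩ : ∃ E, X = E + 1 := ⟨X - 1, by omega⟩
  refine ⟨w.T + 2 - ((k + 3).factorial + (k + 2).factorial + (k + 1).factorial), by omega, ?_⟩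
  have hD : v' + E ≤ w.T + 2 - ((k + 3).factorial + (k + 2).factorial + (k + 1).factorial) := by
    omega
  have h5 : 2 * k.factorial ≤ (k + 2) * v' + 4 * E + 2 := by
    have h6 : (k + 1) * (2 * k.factorial) ≤ (k + 1) * ((k + 2) * v' + 4 * E + 2) := by
      have h7 : (k + 1) * (u + 2 * s) ≤ (k + 1) * ((k + 2) * v' + 4 * E + 2) := by
        apply Nat.mul_le_mul_left
        rw [hu]; omega
      have h8 : (k + 1) * (2 * k.factorial) ≤ 2 * ((k + 1).factorial + v') := by
        rw [f2]; nlinarith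
      omega
    exact Nat.le_of_mul_le_mul_left h6 (by omega)
  generalize w.T + 2 - ((k + 3).factorial + (k + 2).factorial + (k + 1).factorial) = Δ at *
  rcases Nat.lt_or_ge k 2 with hk | hk
  · have : k.factorial ≤ 1 := by
      interval_cases k <;> simp
    have h9 : 2 * k.factorial ≤ 2 := by omega
    have : 0 ≤ (k + 2) * Δ := Nat.zero_le _
    omega
  · have h10 : (k + 2) * v' + 4 * E ≤ (k + 2) * (v' + E) := by
      rw [mul_add]
      have : 4 * E ≤ (k + 2) * E := Nat.mul_le_mul_right _ (by omega)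
      omega
    have h11 : (k + 2) * (v' + E) ≤ (k + 2) * Δ := Nat.mul_le_mul_left _ hD
    omega

end Walk

end Pool.Agent.SP
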