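import Pool.Agent.SP.Alg
import Pool.Agent.SP.Final

namespace Pool.Agent.SP

section

variable {n : ℕ} (hn : 4 ≤ n) (w : ℕ → Fin n) (L : ℕ)

/-- the window at t is a permutation -/
def Pw (t : ℕ) : Prop := t < L + 1 - n ∧ Function.Injective (fun i : Fin n => w (t + i.val))

open Classical in
/-- the permutation at t -/
noncomputable def gw (t : ℕ) : Equiv.Perm (Fin n) :=
  if h : Function.Injective (fun i : Fin n => w (t + i.val)) then
    Equiv.ofBijective _ (Finite.injective_iff_bijective.1 h) else 1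

variable {w L}

lemma gw_apply {t : ℕ} (h : Pw w L t) (i : Fin n) : gw w t i = w (t + i.val) := by
  unfold gw
  rw [dif_pos h.2]
  rfl

lemma inj_of_perm {t t' : ℕ} (h : Pw w L t) (Q : Equiv.Perm (Fin n))
    (hQ : ∀ i : Fin n, w (t' + i.val) = w (t + (Q i).val)) :
    Function.Injective (fun i : Fin n => w (t' + i.val)) := by
  intro a b hab
  have hab' : w (t' + a.val) = w (t' + b.val) := hab
  rw [hQ, hQ] at hab'
  have := h.2 (a₁ := Q a) (a₂ := Q b) hab'
  exact Q.injective this

lemma gw_eq {t t' : ℕ} (h : Pw w L t) (h' : Pw w L t') (Q : Equiv.Perm (Fin n))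
    (hQ : ∀ i : Fin n, w (t' + i.val) = w (t + (Q i).val)) : gw w t' = gw w t * Q := by
  apply Equiv.ext
  intro i
  rw [Equiv.Perm.mul_apply, gw_apply h', gw_apply h, hQ]

/-- every letter occurs in the window -/
lemma exists_idx {t : ℕ} (h : Pw w L t) (a : Fin n) : ∃ j, j < n ∧ w (t + j) = a := by
  have h2 := (Finite.injective_iff_bijective.1 h.2).2 a
  obtain ⟨j, hj⟩ := h2
  exact ⟨j.val, j.isLt, hj⟩

lemma win_ne {t : ℕ} (h : Pw w L t) {a b : ℕ} (ha : a < n) (hb : b < n) (hab : a ≠ b) :
    w (t + a) ≠ w (t + b) := by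
  intro he
  have := h.2 (a₁ := ⟨a, ha⟩) (a₂ := ⟨b, hb⟩) he
  exact hab (by simpa using congrArg Fin.val this)

lemma step1 (hn : 4 ≤ n) {t : ℕ} (h : Pw w L t) (h0 : w (t + n) = w t) :
    ∀ i : Fin n, w (t + 1 + i.val) = w (t + (pR hn i).val) := by
  intro i
  have hi := i.isLt
  rcases pR_val hn i with h1 | h1
  · rw [h1.2]; congr 1; omega
  · rw [h1.2]
    have : t + 1 + i.val = t + n := by omega
    rw [this, h0]; simp

lemma step2 (hn : 4 ≤ n) {t : ℕ} (h0 : w (t + n) = w (t + 1)) (h1 : w (t + n + 1) = w t) :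
    ∀ i : Fin n, w (t + 2 + i.val) = w (t + ((pR hn * pS hn) i).val) := by
  intro i
  have hi := i.isLt
  rw [Equiv.Perm.mul_apply]
  have a := pS_val hn i
  have b := pR_val hn (pS hn i)
  rcases Nat.lt_or_ge (i.val + 2) n with hc | hc
  · have : (pR hn (pS hn i)).val = i.val + 2 := by omega
    rw [this]; congr 1; omega
  · rcases Nat.lt_or_ge (i.val + 1) n with hd | hd
    · have : (pR hn (pS hn i)).val = 1 := by omega
      rw [this]
      have : t + 2 + i.val = t + n := by omega
      rw [this, h0]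
    · have : (pR hn (pS hn i)).val = 0 := by omega
      rw [this]
      have : t + 2 + i.val = t + n + 1 := by omega
      rw [this, h1]; simp

/-- letters of a weight one step -/
lemma letter1 {t : ℕ} (hn : 4 ≤ n) (h : Pw w L t) (h' : Pw w L (t + 1)) : w (t + n) = w t := by
  obtain ⟨j, hj, hw⟩ := exists_idx h (w (t + n))
  rcases Nat.eq_zero_or_pos j with h0 | h0
  · rw [h0] at hw; rw [← hw]; simp
  · exfalso
    have := win_ne h' (a := j - 1) (b := n - 1) (by omega) (by omega) (by omega)
    apply this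
    have e1 : t + 1 + (j - 1) = t + j := by omega
    have e2 : t + 1 + (n - 1) = t + n := by omega
    rw [e1, e2, hw]

lemma not_inj1 {t : ℕ} (hn : 4 ≤ n) (h : Pw w L t) (hT : t + 1 < L + 1 - n)
    (h' : ¬ Pw w L (t + 1)) : w (t + n) ≠ w t := by
  intro h0
  exact h' ⟨hT, inj_of_perm h _ (step1 hn h h0)⟩

lemma not_inj2 {t : ℕ} (hn : 4 ≤ n) (h : Pw w L t) (hT : t + 2 < L + 1 - n)
    (h' : ¬ Pw w L (t + 2)) : ¬ (w (t + n) = w (t + 1) ∧ w (t + n + 1) = w t) := by
  rintro ⟨h0, h1⟩
  exact h' ⟨hT, inj_of_perm h _ (step2 hn h0 h1)⟩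

lemma hh1 (hn : 4 ≤ n) (t : ℕ) (h : Pw w L t) (h' : Pw w L (t + 1)) :
    gw w (t + 1) = gw w t * pR hn :=
  gw_eq h h' _ (step1 hn h (letter1 hn h h'))

lemma hh2 (hn : 4 ≤ n) (t : ℕ) (h : Pw w L t) (h1 : ¬ Pw w L (t + 1)) (h2 : Pw w L (t + 2)) :
    gw w (t + 2) = gw w t * pR hn * pS hn := by
  have hT := h2.1
  have n1 := not_inj1 hn h (by omega) h1
  -- first new letter
  obtain ⟨j, hj, hwj⟩ := exists_idx h (w (t + n))
  obtain ⟨k, hk, hwk⟩ := exists_idx h (w (t + n + 1))
  have hj2 : j < 2 := by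
    by_contra hc
    have := win_ne h2 (a := j - 2) (b := n - 2) (by omega) (by omega) (by omega)
    apply this
    have e1 : t + 2 + (j - 2) = t + j := by omega
    have e2 : t + 2 + (n - 2) = t + n := by omega
    rw [e1, e2, hwj]
  have hk2 : k < 2 := by
    by_contra hc
    have := win_ne h2 (a := k - 2) (b := n - 1) (by omega) (by omega) (by omega)
    apply this
    have e1 : t + 2 + (k - 2) = t + k := by omega
    have e2 : t + 2 + (n - 1) = t + n + 1 := by omega
    rw [e1, e2, hwk]
  have hne : w (t + n) ≠ w (t + n + 1) := by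
    have := win_ne h2 (a := n - 2) (b := n - 1) (by omega) (by omega) (by omega)
    have e1 : t + 2 + (n - 2) = t + n := by omega
    have e2 : t + 2 + (n - 1) = t + n + 1 := by omega
    rwa [e1, e2] at this
  have hj0 : j ≠ 0 := by
    rintro rfl
    exact n1 (by rw [← hwj]; simp)
  have hj1 : j = 1 := by omega
  subst hj1
  have hk0 : k ≠ 1 := by
    rintro rfl
    exact hne (by rw [← hwj, hwk])
  have hk1 : k = 0 := by omega
  subst hk1
  rw [mul_assoc]
  exact gw_eq h h2 _ (step2 hn hwj.symm (by rw [← hwk]; simp))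

lemma hh3 (hn : 4 ≤ n) (t : ℕ) (h : Pw w L t) (h1 : ¬ Pw w L (t + 1)) (h2 : ¬ Pw w L (t + 2))
    (h3 : Pw w L (t + 3)) :
    gw w (t + 3) = gw w t * pR hn * pS hn ^ 2 ∨
    gw w (t + 3) = gw w t * pR hn * pS hn ^ 2 * swp n hn ∨
    gw w (t + 3) = gw w t * bst n hn := by
  have hT := h3.1
  have n1 := not_inj1 hn h (by omega) h1
  have n2 := not_inj2 hn h (by omega) h2
  obtain ⟨j, hj, hwj⟩ := exists_idx h (w (t + n))
  obtain ⟨k, hk, hwk⟩ := exists_idx h (w (t + n + 1))
  obtain ⟨l, hl, hwl⟩ := exists_idx h (w (t + n + 2))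
  have e1 : t + 3 + (n - 3) = t + n := by omega
  have e2 : t + 3 + (n - 2) = t + n + 1 := by omega
  have e3 : t + 3 + (n - 1) = t + n + 2 := by omega
  have hj2 : j < 3 := by
    by_contra hc
    have := win_ne h3 (a := j - 3) (b := n - 3) (by omega) (by omega) (by omega)
    apply this
    have e : t + 3 + (j - 3) = t + j := by omega
    rw [e, e1, hwj]
  have hk2 : k < 3 := by
    by_contra hc
    have := win_ne h3 (a := k - 3) (b := n - 2) (by omega) (by omega) (by omega)
    apply this
    have e : t + 3 + (k - 3) = t + k := by omega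
    rw [e, e2, hwk]
  have hl2 : l < 3 := by
    by_contra hc
    have := win_ne h3 (a := l - 3) (b := n - 1) (by omega) (by omega) (by omega)
    apply this
    have e : t + 3 + (l - 3) = t + l := by omega
    rw [e, e3, hwl]
  have njk : j ≠ k := by
    rintro rfl
    have := win_ne h3 (a := n - 3) (b := n - 2) (by omega) (by omega) (by omega)
    rw [e1, e2] at this
    exact this (by rw [← hwj, hwk])
  have njl : j ≠ l := by
    rintro rfl
    have := win_ne h3 (a := n - 3) (b := n - 1) (by omega) (by omega) (by omega)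
    rw [e1, e3] at this
    exact this (by rw [← hwj, hwl])
  have nkl : k ≠ l := by
    rintro rfl
    have := win_ne h3 (a := n - 2) (b := n - 1) (by omega) (by omega) (by omega)
    rw [e2, e3] at this
    exact this (by rw [← hwk, hwl])
  have hj0 : j ≠ 0 := by
    rintro rfl
    exact n1 (by rw [← hwj]; simp)
  have hjk : ¬ (j = 1 ∧ k = 0) := by
    rintro ⟨rfl, rfl⟩
    exact n2 ⟨hwj.symm, by rw [← hwk]; simp⟩
  -- generic finish
  have fin : ∀ Q : Equiv.Perm (Fin n),
      (∀ i : Fin n, (i.val < n - 3 ∧ (Q i).val = i.val + 3) ∨ (i.val = n - 3 ∧ (Q i).val = j) ∨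
        (i.val = n - 2 ∧ (Q i).val = k) ∨ (i.val = n - 1 ∧ (Q i).val = l)) →
      gw w (t + 3) = gw w t * Q := by
    intro Q hQ
    apply gw_eq h h3
    intro i
    rcases hQ i with ⟨a, b⟩ | ⟨a, b⟩ | ⟨a, b⟩ | ⟨a, b⟩
    · rw [b]; congr 1; omega
    · rw [b, hwj, a, e1]
    · rw [b, hwk, a, e2]
    · rw [b, hwl, a, e3]
  have hcases : (j = 1 ∧ k = 2 ∧ l = 0) ∨ (j = 2 ∧ k = 1 ∧ l = 0) ∨ (j = 2 ∧ k = 0 ∧ l = 1) := by
    omega
  rcases hcases with ⟨rfl, rfl, rfl⟩ | ⟨rfl, rfl, rfl⟩ | ⟨rfl, rfl, rfl⟩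
  · left
    rw [mul_assoc]
    apply fin
    intro i
    simp only [pow_two, Equiv.Perm.mul_apply]
    have a := pS_val hn i
    have b := pS_val hn (pS hn i)
    have c := pR_val hn (pS hn (pS hn i))
    have d := i.isLt
    omega
  · right; left
    rw [mul_assoc, mul_assoc]
    apply fin
    intro i
    simp only [pow_two, Equiv.Perm.mul_apply]
    have z := swp_val hn i
    have a := pS_val hn (swp n hn i)
    have b := pS_val hn (pS hn (swp n hn i))
    have c := pR_val hn (pS hn (pS hn (swp n hn i)))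
    have d := i.isLt
    have hi : i.val < n - 3 ∨ i.val = n - 3 ∨ i.val = n - 2 ∨ i.val = n - 1 := by omega
    generalize (pR hn) ((pS hn) ((pS hn) ((swp n hn) i))) = a4 at *
    generalize (pS hn) ((pS hn) ((swp n hn) i)) = a3 at *
    generalize (pS hn) ((swp n hn) i) = a2 at *
    generalize (swp n hn) i = a1 at *
    rcases hi with hi | hi | hi | hi
    · have z1 : a1.val = i.val := by omega
      have z2 : a2.val = i.val + 1 := by omega
      have z3 : a3.val = i.val + 2 := by omega
      left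
      omega
    · have z1 : a1.val = n - 2 := by omega
      have z2 : a2.val = 0 := by omega
      have z3 : a3.val = 1 := by omega
      right; left
      omega
    · have z1 : a1.val = n - 3 := by omega
      have z2 : a2.val = n - 2 := by omega
      have z3 : a3.val = 0 := by omega
      right; right; left
      omega
    · have z1 : a1.val = n - 1 := by omega
      have z2 : a2.val = n - 1 := by omega
      have z3 : a3.val = n - 1 := by omega
      right; right; right
      omega
  · right; right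
    apply fin
    intro i
    have z := bst_val hn i
    omega

/-- the walk of a word -/
noncomputable def walk (hn : 4 ≤ n) (w : ℕ → Fin n) (L : ℕ)
    (hall : ∀ x : Equiv.Perm (Fin n), ∃ t, t + n ≤ L ∧ ∀ i : Fin n, w (t + i.val) = x i) :
    Walk (dat hn) where
  T := L + 1 - n
  P := Pw w L
  g := gw w
  hT := fun t h => h.1
  h1 := hh1 hn
  h2 := hh2 hn
  h3 := hh3 hn
  hall := by
    intro x
    obtain ⟨t, ht, hx⟩ := hall x
    have hP : Pw w L t := by
      refine ⟨by omega, ?_⟩
      intro a b hab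
      have hab' : w (t + a.val) = w (t + b.val) := hab
      rw [hx, hx] at hab'
      exact x.injective hab'
    refine ⟨t, hP, ?_⟩
    apply Equiv.ext
    intro i
    rw [gw_apply hP, hx]

/-- main inequality for words given as functions -/
theorem word_bound (hn : 4 ≤ n) (w : ℕ → Fin n) (L : ℕ)
    (hall : ∀ x : Equiv.Perm (Fin n), ∃ t, t + n ≤ L ∧ ∀ i : Fin n, w (t + i.val) = x i) :
    ∃ Δ : ℕ, L = n.factorial + (n - 1).factorial + (n - 2).factorial + (n - 3) + Δ ∧
      2 * (n - 3).factorial ≤ (n - 1) * Δ + 2 := by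
  obtain ⟨Δ, h1, h2⟩ := (walk hn w L hall).main (by rw [Fintype.card_perm, Fintype.card_fin])
  refine ⟨Δ, ?_, h2⟩
  have hL : n ≤ L := by
    obtain ⟨t, ht, _⟩ := hall 1
    omega
  have hT : (walk hn w L hall).T = L + 1 - n := rfl
  rw [hT] at h1
  have := Nat.factorial_pos n
  omega

end

end Pool.Agent.SP
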