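import Pool.Agent.SP.Core

namespace Pool.Agent.SP

/-- rotation of the first m positions -/
def rot (n m : ℕ) (hm : m ≤ n) (h0 : 0 < m) : Equiv.Perm (Fin n) where
  toFun i := ⟨if i.val + 1 < m then i.val + 1 else if i.val + 1 = m then 0 else i.val, by
    have := i.isLt
    split_ifs <;> omega⟩
  invFun i := ⟨if i.val < m then (if i.val = 0 then m - 1 else i.val - 1) else i.val, by
    have := i.isLt
    split_ifs <;> omega⟩
  left_inv := by
    intro i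
    have := i.isLt
    apply Fin.ext
    simp only
    split_ifs <;> first | omega | contradiction
  right_inv := by
    intro i
    have := i.isLt
    apply Fin.ext
    simp only
    split_ifs <;> first | omega | contradiction

lemma rot_val {n m : ℕ} (hm : m ≤ n) (h0 : 0 < m) (i : Fin n) :
    (i.val + 1 < m ∧ (rot n m hm h0 i).val = i.val + 1) ∨
    (i.val + 1 = m ∧ (rot n m hm h0 i).val = 0) ∨
    (m ≤ i.val ∧ (rot n m hm h0 i).val = i.val) := by
  have h : (rot n m hm h0 i).val =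
    if i.val + 1 < m then i.val + 1 else if i.val + 1 = m then 0 else i.val := rfl
  rw [h]
  split_ifs <;> omega

lemma rot_inv_val {n m : ℕ} (hm : m ≤ n) (h0 : 0 < m) (i : Fin n) :
    (i.val < m ∧ 0 < i.val ∧ ((rot n m hm h0)⁻¹ i).val + 1 = i.val) ∨
    (i.val = 0 ∧ ((rot n m hm h0)⁻¹ i).val + 1 = m) ∨
    (m ≤ i.val ∧ ((rot n m hm h0)⁻¹ i).val = i.val) := by
  have h : ((rot n m hm h0)⁻¹ i).val =
    if i.val < m then (if i.val = 0 then m - 1 else i.val - 1) else i.val := rfl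
  rw [h]
  split_ifs <;> omega

lemma rot_pow_val {n m : ℕ} (hm : m ≤ n) (h0 : 0 < m) (k : ℕ) (i : Fin n) (hi : i.val < m) :
    ((rot n m hm h0 ^ k) i).val = (i.val + k) % m := by
  induction k with
  | zero => simp [Nat.mod_eq_of_lt hi]
  | succ k ih =>
    rw [pow_succ', Equiv.Perm.mul_apply]
    have h1 := rot_val hm h0 ((rot n m hm h0 ^ k) i)
    rw [ih] at h1
    have h2 : (i.val + k) % m < m := Nat.mod_lt _ h0
    have h3 : (i.val + (k + 1)) % m = ((i.val + k) % m + 1) % m := by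
      rw [← add_assoc, Nat.add_mod, Nat.add_mod ((i.val + k) % m) 1 m, Nat.mod_mod]
    rw [h3]
    rcases h1 with h1 | h1 | h1
    · rw [h1.2, Nat.mod_eq_of_lt h1.1]
    · rw [h1.2, h1.1, Nat.mod_self]
    · omega

lemma rot_pow_fix {n m : ℕ} (hm : m ≤ n) (h0 : 0 < m) (k : ℕ) (i : Fin n) (hi : m ≤ i.val) :
    ((rot n m hm h0 ^ k) i) = i := by
  induction k with
  | zero => simp
  | succ k ih =>
    rw [pow_succ', Equiv.Perm.mul_apply, ih]
    apply Fin.ext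
    have h1 := rot_val hm h0 i
    omega

lemma rot_pow_self {n m : ℕ} (hm : m ≤ n) (h0 : 0 < m) : rot n m hm h0 ^ m = 1 := by
  apply Equiv.ext
  intro i
  rcases Nat.lt_or_ge i.val m with hi | hi
  · apply Fin.ext
    rw [rot_pow_val hm h0 m i hi]
    simp [Nat.mod_eq_of_lt hi]
  · rw [rot_pow_fix hm h0 m i hi]; rfl

lemma orderOf_rot {n m : ℕ} (hm : m ≤ n) (h0 : 0 < m) : orderOf (rot n m hm h0) = m := by
  rw [orderOf_eq_iff h0]
  refine ⟨rot_pow_self hm h0, ?_⟩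
  intro k hk hk0 h
  have h1 := rot_pow_val hm h0 k ⟨0, by omega⟩ h0
  rw [h] at h1
  simp only [Equiv.Perm.one_apply, zero_add] at h1
  rw [Nat.mod_eq_of_lt hk] at h1
  omega

/-- swap of positions n - 3 and n - 2 -/
def swp (n : ℕ) (hn : 4 ≤ n) : Equiv.Perm (Fin n) where
  toFun i := ⟨if i.val = n - 3 then n - 2 else if i.val = n - 2 then n - 3 else i.val, by
    have := i.isLt
    split_ifs <;> omega⟩
  invFun i := ⟨if i.val = n - 3 then n - 2 else if i.val = n - 2 then n - 3 else i.val, by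
    have := i.isLt
    split_ifs <;> omega⟩
  left_inv := by
    intro i
    have := i.isLt
    apply Fin.ext
    simp only
    split_ifs <;> first | omega | contradiction
  right_inv := by
    intro i
    have := i.isLt
    apply Fin.ext
    simp only
    split_ifs <;> first | omega | contradiction

lemma swp_val {n : ℕ} (hn : 4 ≤ n) (i : Fin n) :
    (i.val = n - 3 ∧ (swp n hn i).val = n - 2) ∨
    (i.val = n - 2 ∧ (swp n hn i).val = n - 3) ∨
    (i.val ≠ n - 3 ∧ i.val ≠ n - 2 ∧ (swp n hn i).val = i.val) := by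
  have h : (swp n hn i).val =
    if i.val = n - 3 then n - 2 else if i.val = n - 2 then n - 3 else i.val := rfl
  rw [h]
  split_ifs <;> omega

/-- the type b step -/
def bst (n : ℕ) (hn : 4 ≤ n) : Equiv.Perm (Fin n) where
  toFun i := ⟨if i.val = n - 3 then 2 else if i.val = n - 2 then 0 else
      if i.val = n - 1 then 1 else i.val + 3, by
    have := i.isLt
    split_ifs <;> omega⟩
  invFun i := ⟨if i.val = 2 then n - 3 else if i.val = 0 then n - 2 else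
      if i.val = 1 then n - 1 else i.val - 3, by
    have := i.isLt
    split_ifs <;> omega⟩
  left_inv := by
    intro i
    have := i.isLt
    apply Fin.ext
    simp only
    split_ifs <;> first | omega | contradiction
  right_inv := by
    intro i
    have := i.isLt
    apply Fin.ext
    simp only
    split_ifs <;> first | omega | contradiction

lemma bst_val {n : ℕ} (hn : 4 ≤ n) (i : Fin n) :
    (i.val = n - 3 ∧ (bst n hn i).val = 2) ∨
    (i.val = n - 2 ∧ (bst n hn i).val = 0) ∨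
    (i.val = n - 1 ∧ (bst n hn i).val = 1) ∨
    (i.val < n - 3 ∧ (bst n hn i).val = i.val + 3) := by
  have h : (bst n hn i).val = if i.val = n - 3 then 2 else if i.val = n - 2 then 0 else
      if i.val = n - 1 then 1 else i.val + 3 := rfl
  have := i.isLt
  rw [h]
  split_ifs <;> omega

section

variable {n : ℕ} (hn : 4 ≤ n)

/-- full rotation -/
def pR : Equiv.Perm (Fin n) := rot n n (le_refl _) (by omega)

/-- rotation of the first n - 1 positions -/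
def pS : Equiv.Perm (Fin n) := rot n (n - 1) (by omega) (by omega)

lemma pR_val (i : Fin n) : (i.val + 1 < n ∧ (pR hn i).val = i.val + 1) ∨
    (i.val + 1 = n ∧ (pR hn i).val = 0) := by
  have := rot_val (le_refl n) (by omega) i
  have h := i.isLt
  unfold pR
  omega

lemma pS_val (i : Fin n) : (i.val + 1 < n - 1 ∧ (pS hn i).val = i.val + 1) ∨
    (i.val + 1 = n - 1 ∧ (pS hn i).val = 0) ∨ (i.val + 1 = n ∧ (pS hn i).val = i.val) := by
  have := rot_val (m := n - 1) (n := n) (by omega) (by omega) i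
  have h := i.isLt
  unfold pS
  omega

lemma pR_inv_val (i : Fin n) : (0 < i.val ∧ ((pR hn)⁻¹ i).val + 1 = i.val) ∨
    (i.val = 0 ∧ ((pR hn)⁻¹ i).val + 1 = n) := by
  have := rot_inv_val (le_refl n) (by omega) i
  have h := i.isLt
  unfold pR
  omega

lemma pS_inv_val (i : Fin n) : (0 < i.val ∧ i.val < n - 1 ∧ ((pS hn)⁻¹ i).val + 1 = i.val) ∨
    (i.val = 0 ∧ ((pS hn)⁻¹ i).val + 1 = n - 1) ∨
    (i.val + 1 = n ∧ ((pS hn)⁻¹ i).val = i.val) := by
  have := rot_inv_val (m := n - 1) (n := n) (by omega) (by omega) i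
  have h := i.isLt
  unfold pS
  omega

lemma id_sw : (pS hn * swp n hn) ^ (n - 2) = 1 := by
  have h : pS hn * swp n hn = rot n (n - 2) (by omega) (by omega) := by
    apply Equiv.ext
    intro i
    apply Fin.ext
    rw [Equiv.Perm.mul_apply]
    have h1 := swp_val hn i
    have h2 := pS_val hn (swp n hn i)
    have h3 := rot_val (m := n - 2) (n := n) (by omega) (by omega) i
    have h4 := i.isLt
    omega
  rw [h]
  exact rot_pow_self _ _

lemma id_ww : swp n hn * swp n hn = 1 := by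
  apply Equiv.ext
  intro i
  apply Fin.ext
  rw [Equiv.Perm.mul_apply, Equiv.Perm.one_apply]
  have h1 := swp_val hn i
  have h2 := swp_val hn (swp n hn i)
  omega

lemma id_jc : pR hn * (pS hn)⁻¹ = pS hn * (pR hn)⁻¹ := by
  apply Equiv.ext
  intro i
  apply Fin.ext
  rw [Equiv.Perm.mul_apply, Equiv.Perm.mul_apply]
  have h1 := pS_inv_val hn i
  have h2 := pR_val hn ((pS hn)⁻¹ i)
  have h3 := pR_inv_val hn i
  have h4 := pS_val hn ((pR hn)⁻¹ i)
  have h5 := i.isLt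
  omega

lemma id_jb : bst n hn = pR hn * pS hn ^ 2 * (pR hn ^ 2)⁻¹ * pS hn ^ 2 := by
  apply Equiv.ext
  intro i
  apply Fin.ext
  simp only [pow_two, mul_inv_rev, Equiv.Perm.mul_apply]
  have h0 := bst_val hn i
  have h1 := pS_val hn i
  have h2 := pS_val hn (pS hn i)
  have h3 := pR_inv_val hn (pS hn (pS hn i))
  have h4 := pR_inv_val hn ((pR hn)⁻¹ (pS hn (pS hn i)))
  have h5 := pS_val hn ((pR hn)⁻¹ ((pR hn)⁻¹ (pS hn (pS hn i))))
  have h6 := pS_val hn (pS hn ((pR hn)⁻¹ ((pR hn)⁻¹ (pS hn (pS hn i)))))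
  have h7 := pR_val hn (pS hn (pS hn ((pR hn)⁻¹ ((pR hn)⁻¹ (pS hn (pS hn i))))))
  have h8 := i.isLt
  generalize (pR hn) (pS hn (pS hn ((pR hn)⁻¹ ((pR hn)⁻¹ (pS hn (pS hn i)))))) = a7 at *
  generalize (pS hn (pS hn ((pR hn)⁻¹ ((pR hn)⁻¹ (pS hn (pS hn i)))))) = a6 at *
  generalize (pS hn ((pR hn)⁻¹ ((pR hn)⁻¹ (pS hn (pS hn i))))) = a5 at *
  generalize ((pR hn)⁻¹ ((pR hn)⁻¹ (pS hn (pS hn i)))) = a4 at *
  generalize ((pR hn)⁻¹ (pS hn (pS hn i))) = a3 at *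
  generalize (pS hn (pS hn i)) = a2 at *
  generalize (pS hn i) = a1 at *
  generalize bst n hn i = b at *
  omega

lemma id_j2 : pS hn ^ 2 * swp n hn * (pS hn ^ 2)⁻¹ * pR hn * pS hn = pR hn ^ 2 := by
  apply Equiv.ext
  intro i
  apply Fin.ext
  simp only [pow_two, mul_inv_rev, Equiv.Perm.mul_apply]
  have h0 := pR_val hn i
  have h0' := pR_val hn (pR hn i)
  have h1 := pS_val hn i
  have h2 := pR_val hn (pS hn i)
  have h3 := pS_inv_val hn (pR hn (pS hn i))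
  have h4 := pS_inv_val hn ((pS hn)⁻¹ (pR hn (pS hn i)))
  have h5 := swp_val hn ((pS hn)⁻¹ ((pS hn)⁻¹ (pR hn (pS hn i))))
  have h6 := pS_val hn (swp n hn ((pS hn)⁻¹ ((pS hn)⁻¹ (pR hn (pS hn i)))))
  have h7 := pS_val hn (pS hn (swp n hn ((pS hn)⁻¹ ((pS hn)⁻¹ (pR hn (pS hn i))))))
  have h8 := i.isLt
  generalize (pS hn (pS hn (swp n hn ((pS hn)⁻¹ ((pS hn)⁻¹ (pR hn (pS hn i))))))) = a7 at *
  generalize (pS hn (swp n hn ((pS hn)⁻¹ ((pS hn)⁻¹ (pR hn (pS hn i)))))) = a6 at *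
  generalize (swp n hn ((pS hn)⁻¹ ((pS hn)⁻¹ (pR hn (pS hn i))))) = a5 at *
  generalize ((pS hn)⁻¹ ((pS hn)⁻¹ (pR hn (pS hn i)))) = a4 at *
  generalize ((pS hn)⁻¹ (pR hn (pS hn i))) = a3 at *
  generalize (pR hn (pS hn i)) = a2 at *
  generalize (pS hn i) = a1 at *
  generalize pR hn (pR hn i) = b2 at *
  generalize pR hn i = b1 at *
  omega

lemma id_j4b : swp n hn * pS hn * (pR hn ^ 2)⁻¹ * (pS hn)⁻¹ = pS hn * (pR hn ^ 3)⁻¹ := by
  apply Equiv.ext
  intro i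
  apply Fin.ext
  have e3 : (pR hn ^ 3)⁻¹ = (pR hn)⁻¹ * (pR hn)⁻¹ * (pR hn)⁻¹ := by group
  rw [e3]
  simp only [pow_two, mul_inv_rev, Equiv.Perm.mul_apply]
  have g1 := pR_inv_val hn i
  have g2 := pR_inv_val hn ((pR hn)⁻¹ i)
  have g3 := pR_inv_val hn ((pR hn)⁻¹ ((pR hn)⁻¹ i))
  have g4 := pS_val hn ((pR hn)⁻¹ ((pR hn)⁻¹ ((pR hn)⁻¹ i)))
  have h1 := pS_inv_val hn i
  have h2 := pR_inv_val hn ((pS hn)⁻¹ i)
  have h3 := pR_inv_val hn ((pR hn)⁻¹ ((pS hn)⁻¹ i))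
  have h4 := pS_val hn ((pR hn)⁻¹ ((pR hn)⁻¹ ((pS hn)⁻¹ i)))
  have h5 := swp_val hn (pS hn ((pR hn)⁻¹ ((pR hn)⁻¹ ((pS hn)⁻¹ i))))
  have h8 := i.isLt
  generalize swp n hn (pS hn ((pR hn)⁻¹ ((pR hn)⁻¹ ((pS hn)⁻¹ i)))) = a5 at *
  generalize pS hn ((pR hn)⁻¹ ((pR hn)⁻¹ ((pS hn)⁻¹ i))) = a4 at *
  generalize (pR hn)⁻¹ ((pR hn)⁻¹ ((pS hn)⁻¹ i)) = a3 at *
  generalize (pR hn)⁻¹ ((pS hn)⁻¹ i) = a2 at *
  generalize (pS hn)⁻¹ i = a1 at *
  generalize pS hn ((pR hn)⁻¹ ((pR hn)⁻¹ ((pR hn)⁻¹ i))) = b4 at *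
  generalize (pR hn)⁻¹ ((pR hn)⁻¹ ((pR hn)⁻¹ i)) = b3 at *
  generalize (pR hn)⁻¹ ((pR hn)⁻¹ i) = b2 at *
  generalize (pR hn)⁻¹ i = b1 at *
  omega

lemma id_j4c : swp n hn * (pS hn)⁻¹ * pR hn * (pS hn ^ 2)⁻¹ = (pR hn ^ 2)⁻¹ := by
  apply Equiv.ext
  intro i
  apply Fin.ext
  simp only [pow_two, mul_inv_rev, Equiv.Perm.mul_apply]
  have g1 := pR_inv_val hn i
  have g2 := pR_inv_val hn ((pR hn)⁻¹ i)
  have h1 := pS_inv_val hn i
  have h2 := pS_inv_val hn ((pS hn)⁻¹ i)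
  have h3 := pR_val hn ((pS hn)⁻¹ ((pS hn)⁻¹ i))
  have h4 := pS_inv_val hn (pR hn ((pS hn)⁻¹ ((pS hn)⁻¹ i)))
  have h5 := swp_val hn ((pS hn)⁻¹ (pR hn ((pS hn)⁻¹ ((pS hn)⁻¹ i))))
  have h8 := i.isLt
  generalize swp n hn ((pS hn)⁻¹ (pR hn ((pS hn)⁻¹ ((pS hn)⁻¹ i)))) = a5 at *
  generalize (pS hn)⁻¹ (pR hn ((pS hn)⁻¹ ((pS hn)⁻¹ i))) = a4 at *
  generalize pR hn ((pS hn)⁻¹ ((pS hn)⁻¹ i)) = a3 at *
  generalize (pS hn)⁻¹ ((pS hn)⁻¹ i) = a2 at *
  generalize (pS hn)⁻¹ i = a1 at *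
  generalize (pR hn)⁻¹ ((pR hn)⁻¹ i) = b2 at *
  generalize (pR hn)⁻¹ i = b1 at *
  omega

/-- the concrete data -/
def dat : Dat (Equiv.Perm (Fin n)) n where
  R := pR hn
  S := pS hn
  W := swp n hn
  B := bst n hn
  hn := hn
  oR := orderOf_rot _ _
  oS := orderOf_rot _ _
  sw := id_sw hn
  ww := id_ww hn
  j2 := id_j2 hn
  jb := id_jb hn
  jc := id_jc hn
  j4b := id_j4b hn
  j4c := id_j4c hn

end

end Pool.Agent.SP
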