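import Pool.Agent.SP.Count

namespace Pool.Agent.SP

open Finset

namespace Walk

variable {G : Type} [Group G] {n : ℕ} {D : Dat G n} (w : Walk D)

/-- the exit time of a line -/
noncomputable def xt (q : G ⧸ Subgroup.zpowers D.S) : ℕ :=
  w.fv (w.ent q * D.S ^ (w.top q) * D.R⁻¹)

/-- perfect succession -/
def Perf (q : G ⧸ Subgroup.zpowers D.S) : Prop :=
  w.inV q ∧ w.unsp q ∧ w.top q = n - 2 ∧
    w.done (w.ent q * D.S ^ (w.top q)) (w.xt q) ∧ w.fv (w.ent q * D.S ^ (w.top q)) ≤ w.xt q ∧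
    w.entry (w.xt q + 2) ∧ ¬ w.P (w.xt q + 1) ∧
    w.g (w.xt q + 3) = w.ent q * D.S ^ (w.top q) * D.S ^ 2 * D.W

/-- the next line in a chain -/
noncomputable def nxt (q : G ⧸ Subgroup.zpowers D.S) : G ⧸ Subgroup.zpowers D.S :=
  line D (w.ent q * (D.S * D.W))

/-- the line entered after the exit -/
noncomputable def suc (q : G ⧸ Subgroup.zpowers D.S) : G ⧸ Subgroup.zpowers D.S :=
  line D (w.g (w.xt q + 3))

variable {w}

lemma S_pow_add {i j k : ℕ} (h : i + j = n - 1 + k) : D.S ^ i * D.S ^ j = D.S ^ k := by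
  rw [← pow_add, h, pow_add, S_pow, one_mul]

lemma P_xt (q : G ⧸ Subgroup.zpowers D.S) : w.P (w.xt q) := w.fv_P _

lemma g_xt (q : G ⧸ Subgroup.zpowers D.S) :
    w.g (w.xt q) = w.ent q * D.S ^ (w.top q) * D.R⁻¹ := w.g_fv _

lemma eq_of_xt_eq {q q' : G ⧸ Subgroup.zpowers D.S} (hV : w.inV q) (hV' : w.inV q')
    (h : w.xt q = w.xt q') : q = q' := by
  have h1 := g_xt (w := w) q
  have h2 := g_xt (w := w) q'
  rw [h, h2] at h1
  have h3 : w.ent q' * D.S ^ (w.top q') = w.ent q * D.S ^ (w.top q) := mul_right_cancel h1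
  rw [← line_ent_pow hV (w.top q), ← line_ent_pow hV' (w.top q'), h3]

lemma tl_suc {q : G ⧸ Subgroup.zpowers D.S} (he : w.entry (w.xt q + 2)) :
    w.tl (w.suc q) = w.xt q + 3 ∧ w.inV (w.suc q) ∧ w.ent (w.suc q) = w.g (w.xt q + 3) := by
  have h1 : w.tl (w.suc q) = w.xt q + 3 := tl_eq_of_entry he
  refine ⟨h1, inV_of_arr he.1, ?_⟩
  unfold ent
  rw [h1]

lemma tl_le_xt {q : G ⧸ Subgroup.zpowers D.S} (hV : w.inV q) (hu : w.unsp q)
    (h : w.fv (w.ent q * D.S ^ (w.top q)) ≤ w.xt q) : w.tl q ≤ w.xt q := by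
  have h1 := tl_le (q := q) (arr_top hV hu) (by rw [w.g_fv]; exact line_ent_pow hV _)
  omega

lemma Perf.spec {q : G ⧸ Subgroup.zpowers D.S} (h : w.Perf q) :
    w.suc q = w.nxt q ∧ w.inV (w.nxt q) ∧ w.ent (w.nxt q) = w.ent q * (D.S * D.W) ∧
      w.tl (w.nxt q) = w.xt q + 3 ∧ w.tl q < w.tl (w.nxt q) ∧
      (∀ i, i ≤ n - 2 → w.done (w.ent q * D.S ^ i) (w.xt q)) := by
  obtain ⟨hV, hu, htop, hd, hf, he, hP, hg⟩ := h
  have hn := D.hn
  have h1 := tl_suc he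
  have h2 : w.g (w.xt q + 3) = w.ent q * (D.S * D.W) := by
    rw [hg, htop]
    have : D.S ^ (n - 2) * D.S ^ 2 = D.S ^ 1 := S_pow_add (by omega)
    rw [mul_assoc (w.ent q), this, pow_one]; group
  have h3 : w.suc q = w.nxt q := by
    unfold suc nxt; rw [h2]
  rw [h3] at h1
  have h4 := tl_le_xt hV hu hf
  refine ⟨h3, h1.2.1, by rw [h1.2.2, h2], h1.1, by omega, ?_⟩
  intro i hi
  rcases Nat.lt_or_ge i (w.top q) with hlt | hge
  · exact done_mono (done_of_lt hV hu hlt) hf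
  · have : i = w.top q := by omega
    rw [this]; exact hd

/-- units: seen before the line is entered -/
lemma mem_unit {z : G} {μ : G ⧸ Subgroup.zpowers D.S} (hV : w.inV μ) (hz : line D z = μ)
    (h : w.fv z < w.tl μ) : w.inV (line D z) ∧ ¬ w.first z := by
  refine ⟨by rw [hz]; exact hV, ?_⟩
  intro hf
  have := tl_le (q := μ) (w.arr_of_first hf) (by rw [w.g_fv]; exact hz)
  omega

/-- is a unit -/
def isU (w : Walk D) (z : G) : Prop := w.inV (line D z) ∧ ¬ w.first z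

lemma isU_of_done {z x : G} {μ : G ⧸ Subgroup.zpowers D.S} {t : ℕ} (hV : w.inV μ)
    (hz : line D z = μ) (hd : w.done x t) (hc : cyc D z = cyc D x) (ht : t < w.tl μ) :
    w.isU z := mem_unit hV hz (lt_of_le_of_lt (hd z hc) ht)

/-- exit of type b or c -/
def bc (w : Walk D) (q : G ⧸ Subgroup.zpowers D.S) : Prop :=
  w.inV q ∧ w.entry (w.xt q + 2) ∧ w.tl q ≤ w.xt q ∧ w.isU (w.ent (w.suc q) * D.S ^ (n - 3))

lemma cyc_zpow_of_eq {x y : G} {k : ℤ} (h : y = x * D.R ^ k) : cyc D y = cyc D x :=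
  (cyc_eq.2 ⟨k, h⟩).symm

/-- ends with last unit missing -/
lemma factA {q : G ⧸ Subgroup.zpowers D.S} (hV : w.inV q) (hu : w.unsp q) (hp : ¬ w.Perf q)
    (htop : w.top q = n - 2) (hF : w.xt q + 2 ≠ w.tl q) :
    w.bc q ∧ ∀ κ, w.Perf κ → w.nxt κ = q → w.isU (w.ent (w.suc q) * D.S ^ (n - 4)) := by
  have hn := D.hn
  rcases exit hV hu (y := w.ent q * D.S ^ (w.top q)) (x := w.xt q) rfl rfl with h | h
  · exact absurd h.2 hF
  obtain ⟨hd, hf, he, hP2, hcase⟩ := h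
  have hs := tl_suc he
  have hle := tl_le_xt hV hu hf
  have hdone : ∀ i, i ≤ n - 2 → w.done (w.ent q * D.S ^ i) (w.xt q) := by
    intro i hi
    rcases Nat.lt_or_ge i (w.top q) with hlt | hge
    · exact done_mono (done_of_lt hV hu hlt) hf
    · have : i = w.top q := by omega
      rw [this]; exact hd
  rcases hcase with ⟨hP1, hg | hg⟩ | ⟨hP1, hg1, hg⟩
  · exact absurd ⟨hV, hu, htop, hd, hf, he, hP1, hg⟩ hp
  · -- type b
    have hy2 : w.ent q * D.S ^ (w.top q) * D.S ^ 2 = w.ent q * D.S ^ 1 := by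
      rw [htop, mul_assoc, S_pow_add (D := D) (i := n - 2) (j := 2) (k := 1) (by omega)]
    have hent : w.ent (w.suc q) = w.ent q * D.S ^ 1 * (D.R ^ 2)⁻¹ * D.S ^ 2 := by
      rw [hs.2.2, hg, D.jb, ← hy2]; group
    have h3 : w.ent (w.suc q) * D.S ^ (n - 3) = w.ent q * D.S ^ 1 * D.R ^ (-2 : ℤ) := by
      rw [hent, mul_assoc _ (D.S ^ 2), S_pow_add (D := D) (i := 2) (j := n - 3) (k := 0) (by omega)]
      group
    refine ⟨⟨hV, he, hle, ?_⟩, ?_⟩
    · apply isU_of_done hs.2.1 (line_ent_pow hs.2.1 _) (hdone 1 (by omega))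
        (cyc_zpow_of_eq h3)
      omega
    · intro κ hκ hκq
      have hsp := hκ.spec
      rw [hκq] at hsp
      have h4 : w.ent (w.suc q) * D.S ^ (n - 4) = w.ent κ * D.S ^ 2 * D.R ^ (-3 : ℤ) := by
        have h5 : D.S ^ 2 * D.S ^ (n - 4) = D.S⁻¹ := by
          rw [← pow_add, eq_inv_iff_mul_eq_one, ← pow_succ]
          have : 2 + (n - 4) + 1 = n - 1 := by omega
          rw [this, S_pow]
        rw [hent, mul_assoc _ (D.S ^ 2), h5, hsp.2.2.1]
        have h6 := D.j4b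
        calc w.ent κ * (D.S * D.W) * D.S ^ 1 * (D.R ^ 2)⁻¹ * D.S⁻¹
            = w.ent κ * D.S * (D.W * D.S * (D.R ^ 2)⁻¹ * D.S⁻¹) := by group
          _ = w.ent κ * D.S * (D.S * (D.R ^ 3)⁻¹) := by rw [h6]
          _ = w.ent κ * D.S ^ 2 * D.R ^ (-3 : ℤ) := by rw [pow_two]; group
      apply isU_of_done hs.2.1 (line_ent_pow hs.2.1 _) (hsp.2.2.2.2.2 2 (by omega))
        (cyc_zpow_of_eq h4)
      omega
  · -- type c
    have hy1 : w.ent q * D.S ^ (w.top q) * D.S = w.ent q := by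
      rw [htop, mul_assoc, ← pow_succ]
      have : n - 2 + 1 = n - 1 := by omega
      rw [this, S_pow, mul_one]
    have hy1' : w.ent q * D.S ^ (w.top q) = w.ent q * D.S⁻¹ := eq_mul_inv_of_mul_eq hy1
    have hent : w.ent (w.suc q) = w.ent q * D.S⁻¹ * D.R * D.S := by
      rw [hs.2.2, hg, hy1']
    have h3 : w.ent (w.suc q) * D.S ^ (n - 3) = w.ent q * D.S ^ 0 * D.R ^ (-1 : ℤ) := by
      have h5 : D.S * D.S ^ (n - 3) = D.S⁻¹ := by
        rw [← pow_succ', eq_inv_iff_mul_eq_one, ← pow_succ]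
        have : n - 3 + 1 + 1 = n - 1 := by omega
        rw [this, S_pow]
      rw [hent, mul_assoc _ D.S, h5]
      have h6 := D.jc
      calc w.ent q * D.S⁻¹ * D.R * D.S⁻¹ = w.ent q * D.S⁻¹ * (D.R * D.S⁻¹) := by group
        _ = w.ent q * D.S⁻¹ * (D.S * D.R⁻¹) := by rw [h6]
        _ = w.ent q * D.S ^ 0 * D.R ^ (-1 : ℤ) := by group
    refine ⟨⟨hV, he, hle, ?_⟩, ?_⟩
    · apply isU_of_done hs.2.1 (line_ent_pow hs.2.1 _) (hdone 0 (by omega))
        (cyc_zpow_of_eq h3)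
      omega
    · intro κ hκ hκq
      have hsp := hκ.spec
      rw [hκq] at hsp
      have h4 : w.ent (w.suc q) * D.S ^ (n - 4) = w.ent κ * D.S ^ 1 * D.R ^ (-2 : ℤ) := by
        have h5 : D.S * D.S ^ (n - 4) = (D.S ^ 2)⁻¹ := by
          rw [← pow_succ', eq_inv_iff_mul_eq_one, ← pow_add]
          have : n - 4 + 1 + 2 = n - 1 := by omega
          rw [this, S_pow]
        rw [hent, mul_assoc _ D.S, h5, hsp.2.2.1]
        have h6 := D.j4c
        calc w.ent κ * (D.S * D.W) * D.S⁻¹ * D.R * (D.S ^ 2)⁻¹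
            = w.ent κ * D.S * (D.W * D.S⁻¹ * D.R * (D.S ^ 2)⁻¹) := by group
          _ = w.ent κ * D.S * (D.R ^ 2)⁻¹ := by rw [h6]
          _ = w.ent κ * D.S ^ 1 * D.R ^ (-2 : ℤ) := by group
      apply isU_of_done hs.2.1 (line_ent_pow hs.2.1 _) (hsp.2.2.2.2.2 1 (by omega))
        (cyc_zpow_of_eq h4)
      omega

/-- ends with top index n - 3 and a perfect predecessor -/
lemma factB {q κ : G ⧸ Subgroup.zpowers D.S} (hV : w.inV q) (hu : w.unsp q)
    (htop : w.top q = n - 3) (hκ : w.Perf κ) (hκq : w.nxt κ = q) : w.bc q := by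
  have hn := D.hn
  rcases exit hV hu (y := w.ent q * D.S ^ (w.top q)) (x := w.xt q) rfl rfl with h | h
  · omega
  obtain ⟨hd, hf, he, hP2, hcase⟩ := h
  have hs := tl_suc he
  have hle := tl_le_xt hV hu hf
  have hsp := hκ.spec
  rw [hκq] at hsp
  have hκV : w.inV κ := hκ.1
  have hy2 : w.ent q * D.S ^ (w.top q) * D.S ^ 2 = w.ent q := by
    rw [htop, mul_assoc, S_pow_add (D := D) (i := n - 3) (j := 2) (k := 0) (by omega)]
    simp
  rcases hcase with ⟨hP1, hg | hg⟩ | ⟨hP1, hg1, hg⟩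
  · -- type a is impossible
    exfalso
    have h1 : w.g (w.xt q + 3) = w.ent κ * D.S := by
      rw [hg, hy2, hsp.2.2.1]
      have := D.ww
      calc w.ent κ * (D.S * D.W) * D.W = w.ent κ * D.S * (D.W * D.W) := by group
        _ = w.ent κ * D.S := by rw [this, mul_one]
    apply he.2 (w.tl κ) (by omega) (tl_spec hκV).1
    show line D (w.g (w.tl κ)) = line D (w.g (w.xt q + 3))
    rw [h1, line_mul_S]
    rfl
  · -- type b
    have hent : w.ent (w.suc q) = w.ent q * (D.R ^ 2)⁻¹ * D.S ^ 2 := by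
      rw [hs.2.2, hg, D.jb]
      calc w.ent q * D.S ^ (w.top q) * D.R⁻¹ * (D.R * D.S ^ 2 * (D.R ^ 2)⁻¹ * D.S ^ 2)
          = (w.ent q * D.S ^ (w.top q) * D.S ^ 2) * (D.R ^ 2)⁻¹ * D.S ^ 2 := by group
        _ = _ := by rw [hy2]
    have h3 : w.ent (w.suc q) * D.S ^ (n - 3) = w.ent q * D.S ^ 0 * D.R ^ (-2 : ℤ) := by
      rw [hent, mul_assoc _ (D.S ^ 2), S_pow_add (D := D) (i := 2) (j := n - 3) (k := 0) (by omega)]
      group
    refine ⟨hV, he, hle, ?_⟩
    apply isU_of_done hs.2.1 (line_ent_pow hs.2.1 _)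
      (done_mono (done_of_lt hV hu (i := 0) (by omega)) hf) (cyc_zpow_of_eq h3)
    omega
  · -- type c is impossible
    exfalso
    have h1 : w.g (w.xt q + 3) = w.ent κ * D.S ^ (n - 2) * D.R ^ (2 : ℤ) := by
      have hS3 : D.S ^ (n - 3) = (D.S ^ 2)⁻¹ := by
        rw [eq_inv_iff_mul_eq_one, ← pow_add]
        have : n - 3 + 2 = n - 1 := by omega
        rw [this, S_pow]
      have hS2 : D.S ^ (n - 2) = D.S⁻¹ := by
        rw [eq_inv_iff_mul_eq_one, ← pow_succ]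
        have : n - 2 + 1 = n - 1 := by omega
        rw [this, S_pow]
      rw [hg, htop, hS3, hsp.2.2.1, hS2]
      have := D.j2
      calc w.ent κ * (D.S * D.W) * (D.S ^ 2)⁻¹ * D.R * D.S
          = w.ent κ * D.S⁻¹ * (D.S ^ 2 * D.W * (D.S ^ 2)⁻¹ * D.R * D.S) := by group
        _ = w.ent κ * D.S⁻¹ * D.R ^ 2 := by rw [this]
        _ = _ := by group
    have h2 : w.fv (w.g (w.xt q + 3)) ≤ w.xt κ :=
      hsp.2.2.2.2.2 (n - 2) (le_refl _) _ (cyc_zpow_of_eq h1)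
    have hP3 : w.P (w.xt q + 3) := he.1.1
    have hT := w.hT _ hP3
    apply hu (w.xt q + 3)
    · refine ⟨by omega, Or.inr (by omega), ?_, fun h => w.entry_not_P h hP3⟩
      rintro ⟨_, s, hs', hPs, _⟩
      have : s = w.xt q + 2 := by omega
      rw [this] at hPs
      exact hP2 hPs
    · unfold sp
      rw [if_pos hP3]
      have e1 : w.xt q + 3 - 1 = w.xt q + 2 := by omega
      have e2 : w.xt q + 3 - 2 = w.xt q + 1 := by omega
      rw [e1, if_neg hP2, e2, hg1]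
      have : line D (w.ent q * D.S ^ (w.top q)) = q := line_ent_pow hV _
      rw [this]; simp

end Walk

end Pool.Agent.SP
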