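import Mathlib

/-!
Superpermutations: abstract walk and first counting facts.
-/

namespace Pool.Agent.SP

open Finset

/-- The position permutations used in the argument, abstractly. -/
structure Dat (G : Type) [Group G] (n : ℕ) where
  R : G
  S : G
  W : G
  B : G
  hn : 4 ≤ n
  oR : orderOf R = n
  oS : orderOf S = n - 1
  sw : (S * W) ^ (n - 2) = 1
  ww : W * W = 1
  j2 : S ^ 2 * W * (S ^ 2)⁻¹ * R * S = R ^ 2
  jb : B = R * S ^ 2 * (R ^ 2)⁻¹ * S ^ 2
  jc : R * S⁻¹ = S * R⁻¹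
  j4b : W * S * (R ^ 2)⁻¹ * S⁻¹ = S * (R ^ 3)⁻¹
  j4c : W * S⁻¹ * R * (S ^ 2)⁻¹ = (R ^ 2)⁻¹

/-- A walk through all permutations with the possible steps of weight one, two, three. -/
structure Walk {G : Type} [Group G] {n : ℕ} (D : Dat G n) where
  T : ℕ
  P : ℕ → Prop
  g : ℕ → G
  hT : ∀ t, P t → t < T
  h1 : ∀ t, P t → P (t + 1) → g (t + 1) = g t * D.R
  h2 : ∀ t, P t → ¬ P (t + 1) → P (t + 2) → g (t + 2) = g t * D.R * D.S
  h3 : ∀ t, P t → ¬ P (t + 1) → ¬ P (t + 2) → P (t + 3) →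
    g (t + 3) = g t * D.R * D.S ^ 2 ∨ g (t + 3) = g t * D.R * D.S ^ 2 * D.W ∨
      g (t + 3) = g t * D.B
  hall : ∀ x : G, ∃ t, P t ∧ g t = x

namespace Walk

variable {G : Type} [Group G] {n : ℕ} {D : Dat G n} (w : Walk D)

/-- first time at which a permutation is seen -/
noncomputable def fv (x : G) : ℕ := by
  classical exact Nat.find (w.hall x)

lemma fv_spec (x : G) : w.P (w.fv x) ∧ w.g (w.fv x) = x := by
  classical
  unfold fv
  exact Nat.find_spec (w.hall x)

lemma fv_P (x : G) : w.P (w.fv x) := (w.fv_spec x).1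

lemma g_fv (x : G) : w.g (w.fv x) = x := (w.fv_spec x).2

lemma fv_le {x : G} {t : ℕ} (hP : w.P t) (hg : w.g t = x) : w.fv x ≤ t := by
  classical
  unfold fv
  exact Nat.find_min' (w.hall x) ⟨hP, hg⟩

lemma fv_inj {x y : G} (h : w.fv x = w.fv y) : x = y := by
  rw [← w.g_fv x, ← w.g_fv y, h]

lemma fv_lt_T (x : G) : w.fv x < w.T := w.hT _ (w.fv_P x)

/-- arrival -/
def arr (t : ℕ) : Prop := w.P t ∧ (t = 0 ∨ ¬ w.P (t - 1))

lemma arr_succ {t : ℕ} : w.arr (t + 1) ↔ w.P (t + 1) ∧ ¬ w.P t := by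
  unfold arr; simp

/-- if the first visit is no arrival then the rotated permutation was seen before -/
lemma fv_lt_of_not_arr {x : G} (h : ¬ w.arr (w.fv x)) : w.fv (x * D.R⁻¹) < w.fv x := by
  have hP := w.fv_P x
  have hne : w.fv x ≠ 0 := fun h0 => h ⟨hP, Or.inl h0⟩
  obtain ⟨s, hs⟩ := Nat.exists_eq_succ_of_ne_zero hne
  have hs' : w.fv x = s + 1 := hs
  have hPs : w.P s := by
    by_contra hc
    apply h
    rw [hs']
    rw [w.arr_succ]
    exact ⟨hs' ▸ hP, hc⟩
  have hg : w.g (s + 1) = w.g s * D.R := w.h1 s hPs (hs' ▸ hP)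
  have hx : w.g s = x * D.R⁻¹ := by
    have := w.g_fv x
    rw [hs', hg] at this
    rw [← this]; group
  have := w.fv_le hPs hx
  omega

/-- the line of a permutation -/
def line (D : Dat G n) (x : G) : G ⧸ Subgroup.zpowers D.S := (x : G ⧸ Subgroup.zpowers D.S)

/-- the one-cycle of a permutation -/
def cyc (D : Dat G n) (x : G) : G ⧸ Subgroup.zpowers D.R := (x : G ⧸ Subgroup.zpowers D.R)

lemma line_eq {x y : G} : line D x = line D y ↔ ∃ k : ℤ, y = x * D.S ^ k := by
  unfold line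
  rw [QuotientGroup.eq, Subgroup.mem_zpowers_iff]
  constructor
  · rintro ⟨k, hk⟩
    exact ⟨k, by rw [hk]; group⟩
  · rintro ⟨k, hk⟩
    exact ⟨k, by rw [hk]; group⟩

lemma cyc_eq {x y : G} : cyc D x = cyc D y ↔ ∃ k : ℤ, y = x * D.R ^ k := by
  unfold cyc
  rw [QuotientGroup.eq, Subgroup.mem_zpowers_iff]
  constructor
  · rintro ⟨k, hk⟩
    exact ⟨k, by rw [hk]; group⟩
  · rintro ⟨k, hk⟩
    exact ⟨k, by rw [hk]; group⟩

lemma line_mul_S (x : G) : line D (x * D.S) = line D x := by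
  rw [eq_comm, line_eq]; exact ⟨1, by simp⟩

lemma line_mul_pow (x : G) (k : ℕ) : line D (x * D.S ^ k) = line D x := by
  rw [eq_comm, line_eq]; exact ⟨k, by simp⟩

lemma line_mul_zpow (x : G) (k : ℤ) : line D (x * D.S ^ k) = line D x := by
  rw [eq_comm, line_eq]; exact ⟨k, by simp⟩

lemma cyc_mul_zpow (x : G) (k : ℤ) : cyc D (x * D.R ^ k) = cyc D x := by
  rw [eq_comm, cyc_eq]; exact ⟨k, by simp⟩

lemma S_pow : D.S ^ (n - 1) = 1 := by rw [← D.oS]; exact pow_orderOf_eq_one _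

lemma R_pow : D.R ^ n = 1 := by
  have := pow_orderOf_eq_one D.R
  rwa [D.oR] at this

/-- complete up to time t: all permutations of the one-cycle of x are seen by time t -/
def done (x : G) (t : ℕ) : Prop := ∀ y, cyc D y = cyc D x → w.fv y ≤ t

lemma done_congr {x y : G} {t : ℕ} (h : cyc D x = cyc D y) : w.done x t ↔ w.done y t := by
  unfold done; rw [h]

/-- x is the first seen permutation of its one-cycle -/
def first (x : G) : Prop := ∀ y, cyc D y = cyc D x → w.fv x ≤ w.fv y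

lemma arr_of_first {x : G} (h : w.first x) : w.arr (w.fv x) := by
  by_contra hc
  have h1 := w.fv_lt_of_not_arr hc
  have h2 := h (x * D.R⁻¹) (by
    have := cyc_mul_zpow (D := D) x (-1)
    simpa using this)
  omega

/-- the window is wasted -/
def waste (t : ℕ) : Prop := ¬ w.P t ∨ w.fv (w.g t) < t

/-- the window after the completion of a one-cycle -/
def comp (t : ℕ) : Prop := t < w.T ∧ ∃ s, t = s + 1 ∧ w.P s ∧ w.fv (w.g s) = s ∧ w.done (w.g s) s

/-- the window before the first arrival on a line -/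
def entry (t : ℕ) : Prop :=
  w.arr (t + 1) ∧ ∀ s, s ≤ t → w.arr s → line D (w.g s) ≠ line D (w.g (t + 1))

/-- the window is an extra wasted window -/
def extra (t : ℕ) : Prop := t ≤ w.T ∧ w.waste t ∧ ¬ w.comp t ∧ ¬ w.entry t

lemma entry_not_P {t : ℕ} (h : w.entry t) : ¬ w.P t := (w.arr_succ.1 h.1).2

lemma comp_waste {t : ℕ} (h : w.comp t) : w.waste t := by
  obtain ⟨_, s, rfl, hP, hf, hd⟩ := h
  by_cases hP' : w.P (s + 1)
  · right
    have := w.h1 s hP hP'
    have h2 := hd (w.g s * D.R) (by simpa using cyc_mul_zpow (D := D) (w.g s) 1)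
    rw [this]; omega
  · left; exact hP'

lemma entry_waste {t : ℕ} (h : w.entry t) : w.waste t := Or.inl (w.entry_not_P h)

lemma not_comp_and_entry {t : ℕ} (h : w.comp t) (h' : w.entry t) : False := by
  obtain ⟨_, s, rfl, hP, hf, hd⟩ := h
  have hnP := w.entry_not_P h'
  have harr := h'.1
  have hP2 : w.P (s + 2) := harr.1
  have hg := w.h2 s hP hnP hP2
  have hcx : cyc D (w.g s * D.R) = cyc D (w.g s) := by
    simpa using cyc_mul_zpow (D := D) (w.g s) 1
  have hle := hd (w.g s * D.R) hcx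
  have hne : w.fv (w.g s * D.R) ≠ s := by
    intro he
    have : w.g s * D.R = w.g s := by
      apply w.fv_inj; rw [he, hf]
    have hR : D.R = 1 := by simpa using this
    have h4 := D.oR
    rw [hR, orderOf_one] at h4
    have := D.hn
    omega
  have harr2 : w.arr (w.fv (w.g s * D.R)) := by
    by_contra hc
    have h3 := w.fv_lt_of_not_arr hc
    have h4 : w.g s * D.R * D.R⁻¹ = w.g s := by group
    rw [h4, hf] at h3
    omega
  have h5 := h'.2 (w.fv (w.g s * D.R)) (by omega) harr2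
  apply h5
  rw [w.g_fv]
  have h6 : w.g (s + 1 + 1) = w.g s * D.R * D.S := hg
  rw [h6, line_mul_S]

end Walk

end Pool.Agent.SP
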