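import Pool.Agent.SP.Struct

namespace Pool.Agent.SP

open Finset

namespace Walk

variable {G : Type} [Group G] [Fintype G] {n : ℕ} {D : Dat G n} (w : Walk D)

noncomputable instance : Fintype (G ⧸ Subgroup.zpowers D.S) := by
  classical exact Fintype.ofFinite _

noncomputable instance : Fintype (G ⧸ Subgroup.zpowers D.R) := by
  classical exact Fintype.ofFinite _

lemma card_quot_R (hG : Fintype.card G = n.factorial) :
    Fintype.card (G ⧸ Subgroup.zpowers D.R) = (n - 1).factorial := by
  have h := Subgroup.card_eq_card_quotient_mul_card_subgroup (Subgroup.zpowers D.R)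
  rw [Nat.card_eq_fintype_card, hG, Nat.card_zpowers, D.oR, Nat.card_eq_fintype_card] at h
  have hn := D.hn
  have h2 : n.factorial = n * (n - 1).factorial := by
    obtain ⟨k, rfl⟩ : ∃ k, n = k + 1 := ⟨n - 1, by omega⟩
    simp [Nat.factorial_succ]
  rw [h2, mul_comm] at h
  exact (Nat.eq_of_mul_eq_mul_right (by omega) h).symm

open Classical in
/-- the set of lines met -/
noncomputable def Vs : Finset (G ⧸ Subgroup.zpowers D.S) := univ.filter (fun q => w.inV q)

open Classical in
/-- the set of units -/
noncomputable def Us : Finset G := univ.filter (fun x => w.inV (line D x) ∧ ¬ w.first x)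

open Classical in
/-- the set of first permutations -/
noncomputable def Fs : Finset G := univ.filter (fun x => w.first x)

lemma card_fiber (q : G ⧸ Subgroup.zpowers D.S) [DecidablePred fun x : G => line D x = q] :
    (univ.filter (fun x : G => line D x = q)).card = n - 1 := by
  classical
  obtain ⟨x0, hx0⟩ : ∃ x0 : G, line D x0 = q := by
    obtain ⟨x0, hx0⟩ := QuotientGroup.mk_surjective q
    exact ⟨x0, hx0⟩
  have hn := D.hn
  have himg : univ.filter (fun x : G => line D x = q) =
      (Finset.range (n - 1)).image (fun k => x0 * D.S ^ k) := by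
    ext x
    simp only [mem_filter, mem_univ, true_and, mem_image, mem_range]
    constructor
    · intro hx
      rw [← hx0, eq_comm, line_eq] at hx
      obtain ⟨k, hk⟩ := hx
      have hpos : (0 : ℤ) < (n - 1 : ℕ) := by omega
      refine ⟨(k % ((n - 1 : ℕ) : ℤ)).toNat, ?_, ?_⟩
      · have h1 := Int.emod_nonneg k (b := ((n - 1 : ℕ) : ℤ)) (by omega)
        have h2 := Int.emod_lt_of_pos k hpos
        omega
      · rw [hk]
        congr 1
        have h1 := Int.emod_nonneg k (b := ((n - 1 : ℕ) : ℤ)) (by omega)
        rw [← zpow_natCast, Int.toNat_of_nonneg h1]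
        have h3 := zpow_mod_orderOf D.S k
        rw [D.oS] at h3
        exact h3
    · rintro ⟨k, _, rfl⟩
      rw [line_mul_pow, hx0]
  rw [himg, Finset.card_image_of_injOn, card_range]
  intro a ha b hb hab
  have hab' : D.S ^ a = D.S ^ b := by simpa using hab
  exact pow_S_inj (by simpa using ha) (by simpa using hb) hab'

open Classical in
lemma card_A : (univ.filter (fun x : G => w.inV (line D x))).card = (n - 1) * w.Vs.card := by
  have h : (univ.filter (fun x : G => w.inV (line D x))).card =
      ∑ q ∈ w.Vs, (univ.filter (fun x : G => line D x = q)).card := by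
    rw [Finset.card_eq_sum_card_fiberwise (f := fun x : G => line D x) (t := w.Vs)]
    · apply Finset.sum_congr rfl
      intro q hq
      congr 1
      ext x
      simp only [mem_filter, mem_univ, true_and]
      constructor
      · exact fun h => h.2
      · intro h
        refine ⟨?_, h⟩
        rw [h]
        unfold Vs at hq
        exact (mem_filter.1 hq).2
    · intro x hx
      have : w.inV (line D x) := (mem_filter.1 hx).2
      simp only [Vs, coe_filter, mem_univ, true_and, Set.mem_setOf_eq]
      exact this
  rw [h, Finset.sum_congr rfl (fun q _ => card_fiber q), Finset.sum_const, smul_eq_mul, mul_comm]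

lemma exists_first (q : G ⧸ Subgroup.zpowers D.R) : ∃ x, cyc D x = q ∧ w.first x := by
  classical
  have hne : (univ.filter (fun x : G => cyc D x = q)).Nonempty := by
    obtain ⟨x0, hx0⟩ := QuotientGroup.mk_surjective q
    exact ⟨x0, by simp only [mem_filter, mem_univ, true_and]; exact hx0⟩
  obtain ⟨x, hx, hmin⟩ := Finset.exists_min_image _ w.fv hne
  have hx' : cyc D x = q := (mem_filter.1 hx).2
  refine ⟨x, hx', ?_⟩
  intro y hy
  apply hmin
  rw [mem_filter]
  exact ⟨mem_univ _, by rw [hy, hx']⟩

lemma exists_last (q : G ⧸ Subgroup.zpowers D.R) :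
    ∃ x, cyc D x = q ∧ w.done x (w.fv x) := by
  classical
  have hne : (univ.filter (fun x : G => cyc D x = q)).Nonempty := by
    obtain ⟨x0, hx0⟩ := QuotientGroup.mk_surjective q
    exact ⟨x0, by simp only [mem_filter, mem_univ, true_and]; exact hx0⟩
  obtain ⟨x, hx, hmax⟩ := Finset.exists_max_image _ w.fv hne
  have hx' : cyc D x = q := (mem_filter.1 hx).2
  refine ⟨x, hx', ?_⟩
  intro y hy
  apply hmax
  rw [mem_filter]
  exact ⟨mem_univ _, by rw [hy, hx']⟩

lemma card_Fs (hG : Fintype.card G = n.factorial) : w.Fs.card = (n - 1).factorial := by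
  classical
  rw [← card_quot_R (D := D) hG, ← Finset.card_univ]
  apply Finset.card_bij (fun x _ => cyc D x)
  · intros; exact mem_univ _
  · intro x hx y hy hxy
    have hx' : w.first x := (mem_filter.1 hx).2
    have hy' : w.first y := (mem_filter.1 hy).2
    apply w.fv_inj
    exact le_antisymm (hx' y hxy.symm) (hy' x hxy)
  · intro q _
    obtain ⟨x, hx, hf⟩ := w.exists_first q
    exact ⟨x, by simp only [Fs, mem_filter, mem_univ, true_and]; exact hf, hx⟩

lemma first_inV {x : G} (h : w.first x) : w.inV (line D x) := by
  have := inV_of_arr (w := w) (w.arr_of_first h)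
  rwa [w.g_fv] at this

lemma card_Us (hG : Fintype.card G = n.factorial) :
    w.Us.card + (n - 1).factorial = (n - 1) * w.Vs.card := by
  classical
  rw [← w.card_A, ← w.card_Fs hG]
  have h : univ.filter (fun x : G => w.inV (line D x)) = w.Us ∪ w.Fs := by
    ext x
    simp only [Us, Fs, mem_filter, mem_univ, true_and, mem_union]
    constructor
    · intro hx
      by_cases hf : w.first x
      · right; exact hf
      · left; exact ⟨hx, hf⟩
    · rintro (hx | hx)
      · exact hx.1
      · exact w.first_inV hx
  have hd : Disjoint w.Us w.Fs := by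
    rw [Finset.disjoint_left]
    intro x hx hx'
    exact (mem_filter.1 hx).2.2 (mem_filter.1 hx').2
  rw [h, Finset.card_union_of_disjoint hd]

open Classical in
/-- extra windows -/
noncomputable def Xs : Finset ℕ := (range (w.T + 1)).filter (fun t => w.extra t)

open Classical in
/-- spoiled lines -/
noncomputable def Sps : Finset (G ⧸ Subgroup.zpowers D.S) := w.Xs.biUnion w.sp

lemma unsp_of_notMem {q : G ⧸ Subgroup.zpowers D.S} (h : q ∉ w.Sps) : w.unsp q := by
  classical
  intro t ht hq
  apply h
  unfold Sps
  rw [mem_biUnion]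
  exact ⟨t, by simp only [Xs, mem_filter, mem_range]; exact ⟨by have := ht.1; omega, ht⟩, hq⟩

lemma not_P_T : ¬ w.P w.T := fun h => lt_irrefl _ (w.hT _ h)

lemma extra_T : w.extra w.T := by
  refine ⟨le_refl _, Or.inl w.not_P_T, fun h => lt_irrefl _ h.1, ?_⟩
  intro h
  have := w.hT _ h.1.1
  omega

lemma card_Sps : w.Sps.card + 1 ≤ 2 * w.Xs.card := by
  classical
  have hT : w.T ∈ w.Xs := by
    simp only [Xs, mem_filter, mem_range]
    exact ⟨by omega, w.extra_T⟩
  have h1 : w.Sps = w.sp w.T ∪ (w.Xs.erase w.T).biUnion w.sp := by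
    unfold Sps
    conv_lhs => rw [← Finset.insert_erase hT]
    rw [Finset.biUnion_insert]
  have h2 := Finset.card_union_le (w.sp w.T) ((w.Xs.erase w.T).biUnion w.sp)
  have h3 := w.card_sp_T (le_refl w.T)
  have h4 := Finset.card_biUnion_le_card_mul (w.Xs.erase w.T) w.sp 2 (fun t _ => w.card_sp t)
  have h5 := Finset.card_erase_of_mem hT
  have h6 : 0 < w.Xs.card := Finset.card_pos.2 ⟨_, hT⟩
  rw [h1]
  omega

lemma card_comp (hG : Fintype.card G = n.factorial) [DecidablePred fun t => w.comp t] :
    (n - 1).factorial ≤ ((range w.T).filter (fun t => w.comp t)).card + 1 := by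
  classical
  rw [← card_quot_R (D := D) hG, ← Finset.card_univ]
  choose f hf using w.exists_last
  -- map q to fv (f q) + 1
  have hinj : ∀ q q', w.fv (f q) = w.fv (f q') → q = q' := by
    intro q q' h
    have := w.fv_inj h
    rw [← (hf q).1, ← (hf q').1, this]
  have h1 : (univ.filter (fun q => w.fv (f q) + 1 < w.T)).card ≤
      ((range w.T).filter (fun t => w.comp t)).card := by
    apply Finset.card_le_card_of_injOn (fun q => w.fv (f q) + 1)
    · intro q hq
      have hq' : w.fv (f q) + 1 < w.T := (mem_filter.1 hq).2
      simp only [coe_filter, mem_range, Set.mem_setOf_eq]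
      refine ⟨hq', hq', w.fv (f q), rfl, w.fv_P _, by rw [w.g_fv], ?_⟩
      rw [w.g_fv]; exact (hf q).2
    · intro q _ q' _ h
      exact hinj q q' (by simpa using h)
  have h2 : (univ.filter (fun q => ¬ w.fv (f q) + 1 < w.T)).card ≤ 1 := by
    rw [Finset.card_le_one]
    intro q hq q' hq'
    have a := (mem_filter.1 hq).2
    have b := (mem_filter.1 hq').2
    have c := w.fv_lt_T (f q)
    have d := w.fv_lt_T (f q')
    apply hinj; omega
  have h3 := Finset.card_filter_add_card_filter_not (s := (univ : Finset (G ⧸ Subgroup.zpowers D.R)))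
    (fun q => w.fv (f q) + 1 < w.T)
  omega

lemma card_entry [DecidablePred fun t => w.entry t] :
    w.Vs.card ≤ ((range w.T).filter (fun t => w.entry t)).card + 1 := by
  classical
  have hinj : ∀ q ∈ w.Vs, ∀ q' ∈ w.Vs, w.tl q = w.tl q' → q = q' := by
    intro q hq q' hq' h
    have a := tl_spec (mem_filter.1 hq).2
    have b := tl_spec (mem_filter.1 hq').2
    rw [← a.2, ← b.2, h]
  have h1 : (w.Vs.filter (fun q => w.tl q ≠ 0)).card ≤
      ((range w.T).filter (fun t => w.entry t)).card := by
    apply Finset.card_le_card_of_injOn (fun q => w.tl q - 1)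
    · intro q hq
      have hq0 : w.tl q ≠ 0 := (mem_filter.1 hq).2
      have hqV : w.inV q := (mem_filter.1 (mem_filter.1 hq).1).2
      have a := tl_spec hqV
      obtain ⟨s, hs⟩ := Nat.exists_eq_succ_of_ne_zero hq0
      have hs' : w.tl q = s + 1 := hs
      have hT := w.hT _ a.1.1
      simp only [coe_filter, mem_range, Set.mem_setOf_eq]
      rw [hs'] at hT ⊢
      rw [hs'] at a
      refine ⟨by omega, ?_, ?_⟩
      · simpa using a.1
      · intro r hr harr hl
        have h2 : line D (w.g r) = q := by
          rw [hl]
          simpa using a.2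
        have := tl_le harr h2
        simp only [Nat.add_sub_cancel] at hr
        omega
    · intro q hq q' hq' h
      have hq0 : w.tl q ≠ 0 := (mem_filter.1 hq).2
      have hq0' : w.tl q' ≠ 0 := (mem_filter.1 hq').2
      apply hinj q (mem_filter.1 hq).1 q' (mem_filter.1 hq').1
      have h' : w.tl q - 1 = w.tl q' - 1 := h
      omega
  have h2 : (w.Vs.filter (fun q => ¬ w.tl q ≠ 0)).card ≤ 1 := by
    rw [Finset.card_le_one]
    intro q hq q' hq'
    have a := (mem_filter.1 hq).2
    have b := (mem_filter.1 hq').2
    apply hinj q (mem_filter.1 hq).1 q' (mem_filter.1 hq').1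
    omega
  have h3 := Finset.card_filter_add_card_filter_not (s := w.Vs) (fun q => w.tl q ≠ 0)
  omega

lemma card_nonwaste [DecidablePred fun t => w.waste t] :
    ((range w.T).filter (fun t => ¬ w.waste t)).card = Fintype.card G := by
  classical
  rw [← Finset.card_univ]
  symm
  apply Finset.card_bij (fun x _ => w.fv x)
  · intro x _
    rw [mem_filter, mem_range]
    refine ⟨w.fv_lt_T x, ?_⟩
    intro h
    rcases h with h | h
    · exact h (w.fv_P x)
    · rw [w.g_fv] at h; exact lt_irrefl _ h
  · intro x _ y _ h
    exact w.fv_inj h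
  · intro t ht
    have ht' := (mem_filter.1 ht).2
    unfold waste at ht'
    push Not at ht'
    refine ⟨w.g t, mem_univ _, ?_⟩
    exact le_antisymm (w.fv_le ht'.1 rfl) ht'.2

/-- the main count of windows -/
lemma count_T (hG : Fintype.card G = n.factorial) :
    n.factorial + (n - 1).factorial + w.Vs.card + w.Xs.card ≤ w.T + 3 := by
  classical
  have h1 := w.card_comp hG
  have h2 := w.card_entry
  have h3 := w.card_nonwaste
  rw [hG] at h3
  have h4 := Finset.card_filter_add_card_filter_not (s := range w.T) (fun t => w.waste t)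
  rw [card_range] at h4
  have h5 : ((range w.T).filter (fun t => w.comp t)).card +
      ((range w.T).filter (fun t => w.entry t)).card +
      ((range w.T).filter (fun t => w.extra t)).card ≤
      ((range w.T).filter (fun t => w.waste t)).card := by
    rw [← Finset.card_union_of_disjoint, ← Finset.card_union_of_disjoint]
    · apply Finset.card_le_card
      intro t ht
      simp only [mem_union, mem_filter] at ht ⊢
      rcases ht with (ht | ht) | ht
      · exact ⟨ht.1, w.comp_waste ht.2⟩
      · exact ⟨ht.1, w.entry_waste ht.2⟩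
      · exact ⟨ht.1, ht.2.2.1⟩
    · rw [Finset.disjoint_left]
      intro t ht ht'
      simp only [mem_union, mem_filter] at ht ht'
      rcases ht with ht | ht
      · exact ht'.2.2.2.1 ht.2
      · exact ht'.2.2.2.2 ht.2
    · rw [Finset.disjoint_left]
      intro t ht ht'
      simp only [mem_filter] at ht ht'
      exact w.not_comp_and_entry ht.2 ht'.2
  have h6 : w.Xs.card ≤ ((range w.T).filter (fun t => w.extra t)).card + 1 := by
    have : w.Xs ⊆ insert w.T ((range w.T).filter (fun t => w.extra t)) := by
      intro t ht
      simp only [Xs, mem_filter, mem_range] at ht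
      simp only [mem_insert, mem_filter, mem_range]
      by_cases h : t = w.T
      · left; exact h
      · right; exact ⟨by omega, ht.2⟩
    exact le_trans (Finset.card_le_card this) (Finset.card_insert_le _ _)
  omega

end Walk

end Pool.Agent.SP
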