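import Pool.Agent.SP.Core

namespace Pool.Agent.SP

open Finset

namespace Walk

variable {G : Type} [Group G] {n : ℕ} {D : Dat G n} (w : Walk D)

/-- the line is met by an arrival -/
def inV (q : G ⧸ Subgroup.zpowers D.S) : Prop := ∃ t, w.arr t ∧ line D (w.g t) = q

/-- first arrival time on a line -/
noncomputable def tl (q : G ⧸ Subgroup.zpowers D.S) : ℕ :=
  sInf {t | w.arr t ∧ line D (w.g t) = q}

/-- entry permutation of a line -/
noncomputable def ent (q : G ⧸ Subgroup.zpowers D.S) : G := w.g (w.tl q)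

variable {w}

lemma tl_spec {q : G ⧸ Subgroup.zpowers D.S} (h : w.inV q) :
    w.arr (w.tl q) ∧ line D (w.g (w.tl q)) = q := by
  have : (w.tl q) ∈ {t | w.arr t ∧ line D (w.g t) = q} := Nat.sInf_mem h
  exact this

lemma tl_le {q : G ⧸ Subgroup.zpowers D.S} {t : ℕ} (h : w.arr t) (h' : line D (w.g t) = q) :
    w.tl q ≤ t := Nat.sInf_le ⟨h, h'⟩

lemma line_ent {q : G ⧸ Subgroup.zpowers D.S} (h : w.inV q) : line D (w.ent q) = q :=
  (tl_spec h).2

lemma line_ent_pow {q : G ⧸ Subgroup.zpowers D.S} (h : w.inV q) (i : ℕ) :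
    line D (w.ent q * D.S ^ i) = q := by
  rw [line_mul_pow, line_ent h]

lemma fv_ent_le {q : G ⧸ Subgroup.zpowers D.S} (h : w.inV q) : w.fv (w.ent q) ≤ w.tl q :=
  w.fv_le (tl_spec h).1.1 rfl

lemma inV_of_arr {t : ℕ} (h : w.arr t) : w.inV (line D (w.g t)) := ⟨t, h, rfl⟩

lemma tl_eq_of_entry {t : ℕ} (h : w.entry t) : w.tl (line D (w.g (t + 1))) = t + 1 := by
  have h1 : w.tl (line D (w.g (t + 1))) ≤ t + 1 := tl_le h.1 rfl
  have h2 := tl_spec (inV_of_arr h.1)
  by_contra hne
  exact h.2 _ (by omega) h2.1 h2.2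

variable (w)

open Classical in
/-- the lines spoiled by an extra window at time t -/
noncomputable def sp (t : ℕ) : Finset (G ⧸ Subgroup.zpowers D.S) :=
  if w.P t then
    (if w.P (t - 1) then {line D (w.g t), line D (w.g (t - 1))}
     else {line D (w.g t), line D (w.g (t - 2))})
  else (if w.P (t - 1) then
      (if w.fv (w.g (t - 1)) = t - 1 then {line D (w.g (t - 1) * D.R)} else {line D (w.g (t - 1))})
    else {line D (w.g (t - 2) * D.R)}) ∪ (if w.P (t + 1) then {line D (w.g (t + 1))} else ∅)

lemma card_sp (t : ℕ) : (w.sp t).card ≤ 2 := by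
  classical
  unfold sp
  split_ifs <;> first
    | exact Finset.card_le_two
    | (refine le_trans (Finset.card_union_le _ _) ?_; simp)

lemma card_sp_T {t : ℕ} (h : w.T ≤ t) : (w.sp t).card ≤ 1 := by
  classical
  have h1 : ¬ w.P t := fun hP => by have := w.hT _ hP; omega
  have h2 : ¬ w.P (t + 1) := fun hP => by have := w.hT _ hP; omega
  unfold sp
  rw [if_neg h1, if_neg h2]
  split_ifs <;> simp

/-- the line is not spoiled -/
def unsp (q : G ⧸ Subgroup.zpowers D.S) : Prop := ∀ t, w.extra t → q ∉ w.sp t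

variable {w}

/-- an arrival on an unspoiled line other than the first one -/
lemma arr_unsp {q : G ⧸ Subgroup.zpowers D.S} {t : ℕ} (ht : w.arr t)
    (hq : line D (w.g t) = q) (hu : w.unsp q) (hne : t ≠ w.tl q) :
    ∃ s, t = s + 2 ∧ w.P s ∧ ¬ w.P (s + 1) ∧ w.fv (w.g s) = s ∧ w.done (w.g s) s ∧
      w.g t = w.g s * D.R * D.S ∧ w.arr (w.fv (w.g s * D.R)) ∧ w.fv (w.g s * D.R) < s := by
  have hV : w.inV q := ⟨t, ht, hq⟩
  have hlt : w.tl q < t := lt_of_le_of_ne (tl_le ht hq) (Ne.symm hne)
  obtain ⟨r, rfl⟩ : ∃ r, t = r + 1 := ⟨t - 1, by omega⟩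
  have hnP : ¬ w.P r := (w.arr_succ.1 ht).2
  have hPt : w.P (r + 1) := ht.1
  have hrT : r + 1 < w.T := w.hT _ hPt
  have hnent : ¬ w.entry r := by
    intro he
    have := tl_eq_of_entry he
    rw [hq] at this
    omega
  have hcomp : w.comp r := by
    by_contra hc
    have hex : w.extra r := ⟨by omega, Or.inl hnP, hc, hnent⟩
    apply hu r hex
    unfold sp
    rw [if_neg hnP, if_pos hPt, hq]
    simp
  obtain ⟨_, s, rfl, hPs, hfs, hds⟩ := hcomp
  have hg := w.h2 s hPs hnP hPt
  have h6 : w.g (s + 1 + 1) = w.g s * D.R * D.S := hg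
  have hcx : cyc D (w.g s * D.R) = cyc D (w.g s) := by
    simpa using cyc_mul_zpow (D := D) (w.g s) 1
  have hle := hds (w.g s * D.R) hcx
  have hne' : w.fv (w.g s * D.R) ≠ s := by
    intro he
    have : w.g s * D.R = w.g s := by
      apply w.fv_inj; rw [he, hfs]
    have hR : D.R = 1 := by simpa using this
    have h4 := D.oR
    rw [hR, orderOf_one] at h4
    have := D.hn
    omega
  have harr2 : w.arr (w.fv (w.g s * D.R)) := by
    by_contra hc
    have h3 := w.fv_lt_of_not_arr hc
    have h4 : w.g s * D.R * D.R⁻¹ = w.g s := by group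
    rw [h4, hfs] at h3
    omega
  exact ⟨s, rfl, hPs, hnP, hfs, hds, h6, harr2, by omega⟩

/-- arrivals on unspoiled lines are first visits -/
lemma fv_of_arr_unsp {t : ℕ} (ht : w.arr t) (hu : w.unsp (line D (w.g t))) :
    w.fv (w.g t) = t := by
  by_contra hne
  have hle := w.fv_le ht.1 rfl
  have hlt : w.fv (w.g t) < t := lt_of_le_of_ne hle hne
  have hT := w.hT _ ht.1
  have hncomp : ¬ w.comp t := by
    rintro ⟨_, s, rfl, hP, _⟩
    exact (w.arr_succ.1 ht).2 hP
  have hnent : ¬ w.entry t := fun h => w.entry_not_P h ht.1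
  apply hu t ⟨by omega, Or.inr hlt, hncomp, hnent⟩
  unfold sp
  rw [if_pos ht.1]
  split_ifs <;> simp

lemma pow_S_ne_one {i : ℕ} (h0 : 0 < i) (h1 : i < n - 1) : D.S ^ i ≠ 1 := by
  intro h
  have h2 := orderOf_dvd_of_pow_eq_one h
  rw [D.oS] at h2
  have := Nat.le_of_dvd h0 h2
  omega

lemma pow_S_inj {i j : ℕ} (hi : i < n - 1) (hj : j < n - 1) (h : D.S ^ i = D.S ^ j) : i = j := by
  have := pow_injOn_Iio_orderOf (x := D.S) (by rw [D.oS]; exact hi) (by rw [D.oS]; exact hj) h
  exact this

/-- arrival permutations on an unspoiled line form an initial segment -/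
lemma down {q : G ⧸ Subgroup.zpowers D.S} (hV : w.inV q) (hu : w.unsp q) {i : ℕ}
    (hi : i + 1 ≤ n - 2) (h : w.arr (w.fv (w.ent q * D.S ^ (i + 1)))) :
    w.arr (w.fv (w.ent q * D.S ^ i)) ∧
    w.done (w.ent q * D.S ^ i) (w.fv (w.ent q * D.S ^ (i + 1))) ∧
    w.fv (w.ent q * D.S ^ i) < w.fv (w.ent q * D.S ^ (i + 1)) := by
  have hn := D.hn
  set t := w.fv (w.ent q * D.S ^ (i + 1)) with ht
  have hgt : w.g t = w.ent q * D.S ^ (i + 1) := w.g_fv _
  have hq : line D (w.g t) = q := by rw [hgt, line_ent_pow hV]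
  have hne : t ≠ w.tl q := by
    intro he
    have h1 : w.ent q * D.S ^ (i + 1) = w.ent q := by
      rw [← hgt, he]; rfl
    exact pow_S_ne_one (D := D) (i := i + 1) (by omega) (by omega) (by simpa using h1)
  obtain ⟨s, hts, hPs, hnP, hfs, hds, h6, harr, hlt⟩ := arr_unsp h hq hu hne
  have h7 : w.g s * D.R = w.ent q * D.S ^ i := by
    have : w.g s * D.R * D.S = w.ent q * D.S ^ i * D.S := by
      rw [← h6, hgt, pow_succ]; group
    exact mul_right_cancel this
  rw [h7] at harr hlt
  refine ⟨harr, ?_, by omega⟩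
  have hc : cyc D (w.ent q * D.S ^ i) = cyc D (w.g s) := by
    rw [← h7]; simpa using cyc_mul_zpow (D := D) (w.g s) 1
  rw [w.done_congr hc]
  intro y hy
  have := hds y hy
  omega

open Classical in
/-- the last index of an arrival permutation -/
noncomputable def top (w : Walk D) (q : G ⧸ Subgroup.zpowers D.S) : ℕ :=
  Nat.findGreatest (fun i => w.arr (w.fv (w.ent q * D.S ^ i))) (n - 2)

lemma top_le (q : G ⧸ Subgroup.zpowers D.S) : w.top q ≤ n - 2 := by
  classical
  exact Nat.findGreatest_le _

lemma fv_ent {q : G ⧸ Subgroup.zpowers D.S} (hV : w.inV q) (hu : w.unsp q) :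
    w.fv (w.ent q) = w.tl q := by
  have h := tl_spec hV
  have : w.unsp (line D (w.g (w.tl q))) := by rw [h.2]; exact hu
  exact fv_of_arr_unsp h.1 this

lemma arr_top {q : G ⧸ Subgroup.zpowers D.S} (hV : w.inV q) (hu : w.unsp q) :
    w.arr (w.fv (w.ent q * D.S ^ (w.top q))) := by
  classical
  have h0 : w.arr (w.fv (w.ent q * D.S ^ 0)) := by
    rw [pow_zero, mul_one, fv_ent hV hu]; exact (tl_spec hV).1
  exact Nat.findGreatest_spec (P := fun i => w.arr (w.fv (w.ent q * D.S ^ i)))
    (Nat.zero_le _) h0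

lemma not_arr_of_gt {q : G ⧸ Subgroup.zpowers D.S} {i : ℕ} (h : w.top q < i) (hi : i ≤ n - 2) :
    ¬ w.arr (w.fv (w.ent q * D.S ^ i)) := by
  classical
  exact Nat.findGreatest_is_greatest (P := fun i => w.arr (w.fv (w.ent q * D.S ^ i))) h hi

lemma arr_of_le {q : G ⧸ Subgroup.zpowers D.S} (hV : w.inV q) (hu : w.unsp q) {i : ℕ}
    (hi : i ≤ w.top q) : w.arr (w.fv (w.ent q * D.S ^ i)) ∧
      w.fv (w.ent q * D.S ^ i) ≤ w.fv (w.ent q * D.S ^ (w.top q)) := by
  have htop := top_le (w := w) q
  obtain ⟨k, hk⟩ : ∃ k, w.top q = i + k := ⟨w.top q - i, by omega⟩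
  clear hi
  induction k generalizing i with
  | zero =>
    have : i = w.top q := by omega
    rw [this]; exact ⟨arr_top hV hu, le_refl _⟩
  | succ k ih =>
    have h1 := ih (i := i + 1) (by omega)
    have h2 := down hV hu (i := i) (by omega) h1.1
    exact ⟨h2.1, by omega⟩

lemma done_of_lt {q : G ⧸ Subgroup.zpowers D.S} (hV : w.inV q) (hu : w.unsp q) {i : ℕ}
    (hi : i < w.top q) : w.done (w.ent q * D.S ^ i) (w.fv (w.ent q * D.S ^ (w.top q))) := by
  have htop := top_le (w := w) q
  have h1 := arr_of_le hV hu (i := i + 1) (by omega)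
  have h2 := down hV hu (i := i) (by omega) h1.1
  intro y hy
  have := h2.2.1 y hy
  omega

lemma done_mono {x : G} {s t : ℕ} (h : w.done x s) (hst : s ≤ t) : w.done x t :=
  fun y hy => le_trans (h y hy) hst

/-- the exit lemma -/
lemma exit {q : G ⧸ Subgroup.zpowers D.S} (hV : w.inV q) (hu : w.unsp q) {y : G} {x : ℕ}
    (hy : y = w.ent q * D.S ^ (w.top q)) (hx : x = w.fv (y * D.R⁻¹)) :
    (w.top q = n - 2 ∧ x + 2 = w.tl q) ∨
    (w.done y x ∧ w.fv y ≤ x ∧ w.entry (x + 2) ∧ ¬ w.P (x + 2) ∧
      ((¬ w.P (x + 1) ∧ (w.g (x + 3) = y * D.S ^ 2 * D.W ∨ w.g (x + 3) = y * D.R⁻¹ * D.B)) ∨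
       (w.P (x + 1) ∧ w.g (x + 1) = y ∧ w.g (x + 3) = y * D.R * D.S))) := by
  have hn := D.hn
  have hPx : w.P x := by rw [hx]; exact w.fv_P _
  have hgx : w.g x = y * D.R⁻¹ := by rw [hx]; exact w.g_fv _
  have hfx : w.fv (w.g x) = x := by rw [hgx, ← hx]
  have hxT := w.hT _ hPx
  have hgxR : w.g x * D.R = y := by rw [hgx]; group
  have harr : w.arr (w.fv y) := by rw [hy]; exact arr_top hV hu
  have hliney : line D y = q := by rw [hy]; exact line_ent_pow hV _
  have hcyc : cyc D (w.g x) = cyc D y := by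
    have := cyc_mul_zpow (D := D) y (-1)
    rw [hgx]; simpa using this
  -- window x + 1 is wasted
  have hP1 : w.P (x + 1) → w.g (x + 1) = y ∧ w.fv y < x + 1 := by
    intro hP
    have hg : w.g (x + 1) = y := by rw [w.h1 x hPx hP, hgxR]
    refine ⟨hg, ?_⟩
    have hle := w.fv_le hP hg
    rcases Nat.lt_or_ge (w.fv y) (x + 1) with h | h
    · exact h
    · exfalso
      have he : w.fv y = x + 1 := by omega
      rw [he, w.arr_succ] at harr
      exact harr.2 hPx
  have hw1 : w.waste (x + 1) := by
    by_cases hP : w.P (x + 1)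
    · right; rw [(hP1 hP).1]; exact (hP1 hP).2
    · left; exact hP
  have hne1 : ¬ w.extra (x + 1) := by
    intro he
    apply hu _ he
    unfold sp
    by_cases hP : w.P (x + 1)
    · rw [if_pos hP]
      have : line D (w.g (x + 1)) = q := by rw [(hP1 hP).1, hliney]
      split_ifs <;> simp [this]
    · rw [if_neg hP]
      have h2 : w.P (x + 1 - 1) := by simpa using hPx
      have h3 : w.fv (w.g (x + 1 - 1)) = x + 1 - 1 := hfx
      rw [if_pos h2, if_pos h3]
      have : line D (w.g (x + 1 - 1) * D.R) = q := by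
        show line D (w.g x * D.R) = q
        rw [hgxR, hliney]
      rw [this]; simp
  have hce : w.comp (x + 1) ∨ w.entry (x + 1) := by
    by_contra hc
    push Not at hc
    exact hne1 ⟨by omega, hw1, hc.1, hc.2⟩
  rcases hce with hcomp | hent
  · right
    obtain ⟨hT1, s, hs, _, _, hds⟩ := hcomp
    have hsx : s = x := by omega
    subst hsx
    have hdone : w.done y s := (w.done_congr hcyc).1 hds
    have hfy : w.fv y ≤ s := hdone y rfl
    by_cases hP : w.P (s + 1)
    · have hg1 := (hP1 hP).1
      have hnP2 : ¬ w.P (s + 2) := by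
        intro hP2
        have hg2 : w.g (s + 1 + 1) = w.g (s + 1) * D.R := w.h1 (s + 1) hP hP2
        have hf2 : w.fv (w.g (s + 2)) ≤ s := by
          apply hdone
          show cyc D (w.g (s + 1 + 1)) = _
          rw [hg2, hg1]
          simpa using cyc_mul_zpow (D := D) y 1
        apply hu (s + 2)
        · refine ⟨by have := w.hT _ hP2; omega, Or.inr (by omega), ?_, ?_⟩
          · rintro ⟨_, r, hr, _, hfr, _⟩
            have : r = s + 1 := by omega
            subst this
            rw [hg1] at hfr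
            omega
          · intro he; exact w.entry_not_P he hP2
        · unfold sp
          rw [if_pos hP2]
          have : w.P (s + 2 - 1) := hP
          rw [if_pos this]
          have h3 : line D (w.g (s + 2 - 1)) = q := by
            show line D (w.g (s + 1)) = q
            rw [hg1, hliney]
          rw [h3]; simp
      have hent2 : w.entry (s + 2) := by
        by_contra hne
        apply hu (s + 2)
        · refine ⟨by omega, Or.inl hnP2, ?_, hne⟩
          rintro ⟨_, r, hr, _, hfr, _⟩
          have : r = s + 1 := by omega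
          subst this
          rw [hg1] at hfr
          omega
        · unfold sp
          rw [if_neg hnP2]
          have : w.P (s + 2 - 1) := hP
          have hnf : ¬ w.fv (w.g (s + 2 - 1)) = s + 2 - 1 := by
            show ¬ w.fv (w.g (s + 1)) = s + 1
            rw [hg1]; omega
          rw [if_pos this, if_neg hnf]
          have h3 : line D (w.g (s + 2 - 1)) = q := by
            show line D (w.g (s + 1)) = q
            rw [hg1, hliney]
          rw [h3]; simp
      refine ⟨hdone, hfy, hent2, hnP2, Or.inr ⟨hP, hg1, ?_⟩⟩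
      have hP3 : w.P (s + 1 + 2) := hent2.1.1
      have := w.h2 (s + 1) hP hnP2 hP3
      rw [hg1] at this
      exact this
    · have hnP2 : ¬ w.P (s + 2) := by
        intro hP2
        have harr2 : w.arr (s + 2) := w.arr_succ.2 ⟨hP2, hP⟩
        have hg2 : w.g (s + 2) = y * D.S := by
          rw [w.h2 s hPx hP hP2, hgxR]
        have hl2 : line D (w.g (s + 2)) = q := by rw [hg2, line_mul_S, hliney]
        have hf2 := fv_of_arr_unsp harr2 (by rw [hl2]; exact hu)
        by_cases hm : w.top q < n - 2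
        · apply not_arr_of_gt (w := w) (q := q) (i := w.top q + 1) (by omega) (by omega)
          have : w.ent q * D.S ^ (w.top q + 1) = w.g (s + 2) := by
            rw [hg2, hy, pow_succ]; group
          rw [this, hf2]; exact harr2
        · have hm' : w.top q = n - 2 := by have := top_le (w := w) q; omega
          have h5 : w.g (s + 2) = w.ent q := by
            rw [hg2, hy, hm', mul_assoc, ← pow_succ]
            have : n - 2 + 1 = n - 1 := by omega
            rw [this, S_pow, mul_one]
          have h6 := fv_ent hV hu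
          rw [← h5, hf2] at h6
          have h7 : w.tl q ≤ w.fv y := tl_le harr (by rw [w.g_fv]; exact hliney)
          omega
      have hent2 : w.entry (s + 2) := by
        by_contra hne
        apply hu (s + 2)
        · refine ⟨by omega, Or.inl hnP2, ?_, hne⟩
          rintro ⟨_, r, hr, hPr, _, _⟩
          have : r = s + 1 := by omega
          subst this
          exact hP hPr
        · unfold sp
          rw [if_neg hnP2]
          have : ¬ w.P (s + 2 - 1) := hP
          rw [if_neg this]
          have h3 : line D (w.g (s + 2 - 2) * D.R) = q := by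
            show line D (w.g s * D.R) = q
            rw [hgxR, hliney]
          rw [h3]; simp
      refine ⟨hdone, hfy, hent2, hnP2, Or.inl ⟨hP, ?_⟩⟩
      have hP3 : w.P (s + 3) := hent2.1.1
      rcases w.h3 s hPx hP hnP2 hP3 with h | h | h
      · exfalso
        have hl3 : line D (w.g (s + 3)) = q := by
          rw [h, hgxR]
          rw [line_mul_pow, hliney]
        have := hent2.2 (w.fv y) (by omega) harr
        apply this
        show line D (w.g (w.fv y)) = line D (w.g (s + 3))
        rw [w.g_fv, hliney, hl3]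
      · left; rw [h, hgxR]
      · right; rw [h, hgx]
  · left
    have hnP := w.entry_not_P hent
    have hP2 : w.P (x + 2) := hent.1.1
    have hg2 : w.g (x + 2) = y * D.S := by
      rw [w.h2 x hPx hnP hP2, hgxR]
    have hl2 : line D (w.g (x + 2)) = q := by rw [hg2, line_mul_S, hliney]
    have htl := tl_eq_of_entry hent
    have htl' : w.tl q = x + 2 := by
      rw [← hl2]; exact htl
    refine ⟨?_, by omega⟩
    have h5 : w.ent q * D.S ^ (w.top q + 1) = w.ent q := by
      have h6 : w.ent q = w.g (x + 2) := by unfold ent; rw [htl']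
      have h7 : w.ent q * D.S ^ (w.top q + 1) = y * D.S := by rw [hy, pow_succ]; group
      rw [h7, ← hg2, ← h6]
    have h8 : D.S ^ (w.top q + 1) = 1 := by simpa using h5
    have h9 := orderOf_dvd_of_pow_eq_one h8
    rw [D.oS] at h9
    have h10 := Nat.le_of_dvd (by omega) h9
    have := top_le (w := w) q
    omega

end Walk

end Pool.Agent.SP
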